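import Pool.Agent.T9h34.S.AltCore

set_option autoImplicit false

/-!
# Circuits that are correct on alternating slices: the parameters
-/

namespace Pool.Agent.T9h34.S

open Finset Pool.Agent.T9h34
open scoped Classical

/-- The size of the block. -/
theorem block_size {L : ℕ} (hL1 : 1 ≤ L) : ∃ (a b k m : ℕ) (S : G.Row a b → Fin k → Fin m),
    1 ≤ a ∧ 1 ≤ k ∧ a * 2 + a * (2 * (b * k)) ≤ 10 ^ 27 * L * (Nat.log 2 L + 1) ^ 4 ∧
    a * 2 ^ (2 * b) ≤ 10 ^ 27 * L ^ 2 * (Nat.log 2 L + 1) ^ 5 ∧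
    (2 * (a * 2 * 2 ^ b + a * (2 * (b * k)) * 4)) ^ 2 ≤ 10 ^ 27 * L ^ 3 * (Nat.log 2 L + 1) ^ 7 ∧
    ∀ C : Circuit (Ground a b), (∀ g ∈ C.gates, g.IsMono) → C.size < 2 ^ L →
        (∀ s, C.eval (chi (wordSet (G.sparseCode S) s)) = true) →
        ∃ U : Finset (Ground a b), (¬ ∃ s, wordSet (G.sparseCode S) s ⊆ U) ∧
          C.eval (chi U) = true := by
  obtain ⟨l, hl⟩ : ∃ l, l = L + 100 := ⟨_, rfl⟩
  have hl100 : 100 ≤ l := by omega
  have hlL : l ≤ 101 * L := by omega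
  obtain ⟨y, hy⟩ : ∃ y, y = Nat.log 2 l := ⟨_, rfl⟩
  obtain ⟨z, hz⟩ : ∃ z, z = Nat.log 2 L := ⟨_, rfl⟩
  have hyz : y ≤ z + 7 := by
    have h1 : l < 2 ^ (z + 1) * 2 ^ 7 := by
      have h2 : L < 2 ^ (z + 1) := by rw [hz]; exact Nat.lt_pow_succ_log_self (by norm_num) L
      calc l ≤ 101 * L := hlL
        _ < 101 * 2 ^ (z + 1) := Nat.mul_lt_mul_of_pos_left h2 (by norm_num)
        _ ≤ 128 * 2 ^ (z + 1) := Nat.mul_le_mul_right _ (by norm_num)
        _ = 2 ^ (z + 1) * 2 ^ 7 := by ring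
    rw [← pow_add] at h1
    have h3 : Nat.log 2 l < z + 1 + 7 := (Nat.log_lt_iff_lt_pow (by norm_num) (by omega)).2 h1
    omega
  have hyl : 2 ^ y ≤ l := by rw [hy]; exact Nat.pow_log_le_self 2 (by omega)
  obtain ⟨lam, hlam⟩ : ∃ lam, lam = 2 * y + 25 := ⟨_, rfl⟩
  have hlaml : lam ≤ 25 * l := by
    have h1 : y < 2 ^ y := Nat.lt_two_pow_self
    omega
  have hlamz : lam ≤ 39 * (z + 1) := by omega
  obtain ⟨a, b, k, m, S, ha, hk, hX, ha66, hblam, hkk, h2b, hard⟩ := block hl100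
  rw [← hy, ← hlam] at hX ha66 hblam hkk h2b
  rw [← hz]
  have hA : (a * 2 * 2 ^ b) ^ 2 ≤ 267632640 * (lam ^ 7 * l ^ 3) := by
    calc (a * 2 * 2 ^ b) ^ 2 = 4 * a ^ 2 * 2 ^ (2 * b) := by
          rw [mul_pow, mul_pow, ← pow_mul, mul_comm b 2]
          ring
      _ ≤ 4 * (66 * (lam ^ 2 * l)) ^ 2 * (15360 * (lam ^ 3 * l)) :=
          Nat.mul_le_mul (Nat.mul_le_mul_left _ (Nat.pow_le_pow_left ha66 2)) h2b
      _ = 267632640 * (lam ^ 7 * l ^ 3) := by ring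
  have hB : (a * (2 * (b * k)) * 4) ^ 2 ≤ 27878400 * (lam ^ 7 * l ^ 3) := by
    have h1 : a * (2 * (b * k)) * 4 ≤ 1056 * (lam ^ 4 * l) := by
      calc a * (2 * (b * k)) * 4 ≤ (66 * (lam ^ 2 * l)) * (2 * (lam * (2 * lam))) * 4 := by
            apply Nat.mul_le_mul_right
            apply Nat.mul_le_mul ha66
            apply Nat.mul_le_mul_left
            rw [hkk]
            exact Nat.mul_le_mul_right _ hblam
        _ = 1056 * (lam ^ 4 * l) := by ring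
    calc (a * (2 * (b * k)) * 4) ^ 2 ≤ (1056 * (lam ^ 4 * l)) ^ 2 := Nat.pow_le_pow_left h1 2
      _ = 1115136 * (lam ^ 7 * l ^ 2) * lam := by ring
      _ ≤ 1115136 * (lam ^ 7 * l ^ 2) * (25 * l) := Nat.mul_le_mul_left _ hlaml
      _ = 27878400 * (lam ^ 7 * l ^ 3) := by ring
  have hAB : (2 * (a * 2 * 2 ^ b + a * (2 * (b * k)) * 4)) ^ 2 ≤
      2364088320 * (lam ^ 7 * l ^ 3) := by
    obtain ⟨A, hA'⟩ : ∃ A, A = a * 2 * 2 ^ b := ⟨_, rfl⟩
    obtain ⟨B, hB'⟩ : ∃ B, B = a * (2 * (b * k)) * 4 := ⟨_, rfl⟩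
    rw [← hA'] at hA ⊢
    rw [← hB'] at hB ⊢
    have h1 : (2 * (A + B)) ^ 2 ≤ 8 * (A ^ 2 + B ^ 2) := by
      zify
      nlinarith [sq_nonneg ((A : ℤ) - B)]
    omega
  refine ⟨a, b, k, m, S, ha, hk, ?_, ?_, ?_, ?_⟩
  · have h1 : 1 ≤ lam ^ 2 := Nat.one_le_pow _ _ (by omega)
    have h2 : lam ^ 4 ≤ (39 * (z + 1)) ^ 4 := Nat.pow_le_pow_left hlamz 4
    calc a * 2 + a * (2 * (b * k)) = a * (2 + 2 * (b * k)) := by ring
      _ ≤ (66 * (lam ^ 2 * l)) * (2 * lam ^ 2 + 2 * (lam * (2 * lam))) := by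
          apply Nat.mul_le_mul ha66
          apply Nat.add_le_add
          · omega
          · rw [hkk]
            exact Nat.mul_le_mul_left _ (Nat.mul_le_mul_right _ hblam)
      _ = 396 * (l * lam ^ 4) := by ring
      _ ≤ 396 * ((101 * L) * (39 * (z + 1)) ^ 4) :=
          Nat.mul_le_mul_left _ (Nat.mul_le_mul hlL h2)
      _ = (396 * 101 * 39 ^ 4) * (L * (z + 1) ^ 4) := by ring
      _ ≤ 10 ^ 27 * (L * (z + 1) ^ 4) := Nat.mul_le_mul_right _ (by norm_num)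
      _ = 10 ^ 27 * L * (z + 1) ^ 4 := by ring
  · have h1 : l ^ 2 ≤ (101 * L) ^ 2 := Nat.pow_le_pow_left hlL 2
    have h2 : lam ^ 5 ≤ (39 * (z + 1)) ^ 5 := Nat.pow_le_pow_left hlamz 5
    calc a * 2 ^ (2 * b) ≤ 1013760 * lam ^ 5 * l ^ 2 := hX
      _ ≤ 1013760 * (39 * (z + 1)) ^ 5 * (101 * L) ^ 2 :=
          Nat.mul_le_mul (Nat.mul_le_mul_left _ h2) h1
      _ = (1013760 * 39 ^ 5 * 101 ^ 2) * (L ^ 2 * (z + 1) ^ 5) := by ring
      _ ≤ 10 ^ 27 * (L ^ 2 * (z + 1) ^ 5) := Nat.mul_le_mul_right _ (by norm_num)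
      _ = 10 ^ 27 * L ^ 2 * (z + 1) ^ 5 := by ring
  · have h1 : l ^ 3 ≤ (101 * L) ^ 3 := Nat.pow_le_pow_left hlL 3
    have h2 : lam ^ 7 ≤ (39 * (z + 1)) ^ 7 := Nat.pow_le_pow_left hlamz 7
    calc _ ≤ 2364088320 * (lam ^ 7 * l ^ 3) := hAB
      _ ≤ 2364088320 * ((39 * (z + 1)) ^ 7 * (101 * L) ^ 3) :=
          Nat.mul_le_mul_left _ (Nat.mul_le_mul h2 h1)
      _ = (2364088320 * 39 ^ 7 * 101 ^ 3) * (L ^ 3 * (z + 1) ^ 7) := by ring
      _ ≤ 10 ^ 27 * (L ^ 3 * (z + 1) ^ 7) := Nat.mul_le_mul_right _ (by norm_num)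
      _ = 10 ^ 27 * L ^ 3 * (z + 1) ^ 7 := by ring
  · intro C hC hCs
    exact hard C hC (hCs.trans_le (Nat.pow_le_pow_right (by norm_num) (by omega)))

theorem mono_step {M : ℕ} {y z : ℕ → ℕ} (h3 : ∀ i < M, y i ≤ z i)
    (h4 : ∀ i, i + 1 < M → z i ≤ y (i + 1)) : ∀ i < M, z i ≤ z (M - 1) := by
  intro i hi
  obtain ⟨j, hj⟩ : ∃ j, i + j + 1 = M := ⟨M - i - 1, by omega⟩
  have key : ∀ j, i + j + 1 ≤ M → z i ≤ z (i + j) := by
    intro j
    induction j with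
    | zero => intro _; exact le_rfl
    | succ j ih =>
      intro h
      have h5 := ih (by omega)
      have h6 := h4 (i + j) (by omega)
      have h7 := h3 (i + (j + 1)) (by omega)
      have h8 : i + j + 1 = i + (j + 1) := by ring
      rw [h8] at h6
      omega
  have h5 := key j (by omega)
  have h6 : i + j = M - 1 := by omega
  rwa [h6] at h5

/-- The quantitative theorem. -/
theorem alt_main (n q M p dd L W : ℕ) (y z : ℕ → ℕ) (C : Circuit (Fin n × Fin n))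
    (hd : C.FanIn dd) (hs : (dd + 1) * (C.size + 1) < 2 ^ L)
    (hW : 10 ^ 27 * L ^ 3 * (Nat.log 2 L + 1) ^ 7 ≤ W ^ 2) (hWq : 10 ^ 27 * L * (Nat.log 2 L + 1) ^ 4 ≤ q)
    (hM : M ≤ p ^ 2)
    (hy0 : 0 < M → q.choose 2 + n * (p * W) ≤ y 0)
    (hz0 : 0 < M → z (M - 1) + n * (p * W) ≤
      SimpleGraph.extremalNumber n (⊤ : SimpleGraph (Fin q)))
    (h3 : ∀ i < M, y i + 10 ^ 27 * L ^ 2 * (Nat.log 2 L + 1) ^ 5 ≤ z i)
    (h4 : ∀ i, i + 1 < M → z i + 10 ^ 27 * L ^ 2 * (Nat.log 2 L + 1) ^ 5 ≤ y (i + 1))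
    (hpos : ∀ i < M, ∀ G : SimpleGraph (Fin n), G.edgeSet.ncard = y i →
      (∃ c : Finset (Fin n), G.IsClique (c : Set (Fin n)) ∧ q ≤ c.card) →
        C.eval (graphInput G) = true)
    (hneg : ∀ i < M, ∀ G : SimpleGraph (Fin n), G.edgeSet.ncard = z i →
      (¬ ∃ c : Finset (Fin n), G.IsClique (c : Set (Fin n)) ∧ q ≤ c.card) →
        ¬ C.eval (graphInput G) = true) :
    M ≤ dd * (2 ^ C.numOther - 1) := by
  rcases Nat.eq_zero_or_pos M with hM0 | hM0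
  · omega
  have hy0 := hy0 hM0
  have hz0 := hz0 hM0
  have hL1 : 1 ≤ L := by
    by_contra hL
    have : L = 0 := by omega
    rw [this, pow_zero] at hs
    have : 1 ≤ (dd + 1) * (C.size + 1) := Nat.succ_le_of_lt (Nat.mul_pos (by omega) (by omega))
    omega
  have hp : 1 ≤ p := by
    by_contra hp
    have : p = 0 := by omega
    rw [this] at hM
    simp at hM
    omega
  have hs' : C.size + C.numReads + 1 < 2 ^ L := by
    refine lt_of_le_of_lt ?_ hs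
    have h1 := C.numReads_le hd
    nlinarith
  obtain ⟨a, b, k, m, S, ha, hk, hgr0, hX, hw2, hard⟩ := block_size hL1
  have hW2 : 2 * (a * 2 * 2 ^ b + a * (2 * (b * k)) * 4) ≤ W :=
    (Nat.pow_le_pow_iff_left (by norm_num)).1 (hw2.trans hW)
  have hW1 : 1 ≤ W := by
    by_contra hW1
    have : W = 0 := by omega
    rw [this] at hW
    have h1 : 0 < 10 ^ 27 * L ^ 3 * (Nat.log 2 L + 1) ^ 7 := by positivity
    omega
  -- the number of vertices of the grid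
  obtain ⟨w, hw⟩ : ∃ w, w = a * 2 * (p * 2 ^ b) + a * (2 * (b * k)) * 4 := ⟨_, rfl⟩
  have hwp : 2 * w ≤ p * W := by
    calc 2 * w = p * (2 * (a * 2 * 2 ^ b)) + 1 * (2 * (a * (2 * (b * k)) * 4)) := by
          rw [hw]; ring
      _ ≤ p * (2 * (a * 2 * 2 ^ b)) + p * (2 * (a * (2 * (b * k)) * 4)) :=
          Nat.add_le_add_left (Nat.mul_le_mul_right _ hp) _
      _ = p * (2 * (a * 2 * 2 ^ b + a * (2 * (b * k)) * 4)) := by ring
      _ ≤ p * W := Nat.mul_le_mul_left _ hW2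
  have hgr : a * 2 + a * (2 * (b * k)) ≤ w := by
    rw [hw]
    have h1 : a * 2 ≤ a * 2 * (p * 2 ^ b) := Nat.le_mul_of_pos_right _ (by positivity)
    have h2 : a * (2 * (b * k)) ≤ a * (2 * (b * k)) * 4 := Nat.le_mul_of_pos_right _ (by norm_num)
    omega
  have hgW : a * 2 + a * (2 * (b * k)) ≤ q := hgr0.trans hWq
  have hq2 : 2 ≤ q := by omega
  have hex : SimpleGraph.extremalNumber n (⊤ : SimpleGraph (Fin q)) ≤ n.choose 2 := by
    rw [Pool.Agent.T9h36.extremal_eq n q hq2, Pool.Agent.T9h36.ncard_edgeSet_eq]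
    refine (SimpleGraph.card_edgeFinset_le_card_choose_two).trans (le_of_eq ?_)
    rw [Fintype.card_fin]
  have hzle := mono_step (fun i hi => (Nat.le_add_right _ _).trans (h3 i hi))
    (fun i hi => (Nat.le_add_right _ _).trans (h4 i hi))
  have hyz0 := h3 0 hM0
  have hz00 := hzle 0 hM0
  have hcc : q.choose 2 + n * (p * W) ≤ n.choose 2 := by omega
  have hn0 : 0 < n := by
    by_contra hn0
    have hn0' : n = 0 := by omega
    rw [hn0'] at hcc
    have h1 : (2 : ℕ).choose 2 ≤ q.choose 2 := Nat.choose_le_choose 2 (by omega)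
    simp at hcc h1
    omega
  have hpW : 1 ≤ p * W := Nat.succ_le_of_lt (Nat.mul_pos (by omega) (by omega))
  have hpos' : 0 < n * (p * W) := Nat.mul_pos hn0 (by omega)
  have hwn : 2 * (w * n) ≤ n * (p * W) := by
    calc 2 * (w * n) = n * (2 * w) := by ring
      _ ≤ n * (p * W) := Nat.mul_le_mul_left _ hwp
  have hwn' : w ≤ w * n := Nat.le_mul_of_pos_right _ hn0
  have hqn : q ≤ n := by
    by_contra hqn
    have h1 : n.choose 2 ≤ q.choose 2 := Nat.choose_le_choose 2 (by omega)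
    omega
  have hfit : q + w ≤ n := by
    by_contra hfit
    have h1 := Pool.Agent.T9h36.choose_two_add q (n - q)
    have h2 : q + (n - q) = n := by omega
    rw [h2] at h1
    have h3 : (n - q) * n < w * n := Nat.mul_lt_mul_of_pos_right (by omega) hn0
    omega
  obtain ⟨u, hu⟩ : ∃ u, q = a * 2 + (a * (2 * (b * k)) + u) :=
    ⟨q - (a * 2 + a * (2 * (b * k))), by omega⟩
  obtain ⟨d, hdn⟩ : ∃ d, u + d + w = n := ⟨n - u - w, by omega⟩
  have hcardG : Fintype.card (Grp a b k u) = q := by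
    simp only [Grp, Fintype.card_sum, Fintype.card_prod, Fintype.card_fin, Fintype.card_bool]
    omega
  have hcardV : Fintype.card (GVtx a b k u p) = u + w := by
    simp only [GVtx, Fintype.card_sum, Fintype.card_prod, Fintype.card_fin, Fintype.card_bool,
      Fintype.card_fun, ZMod.card]
    rw [hw]
    ring
  have hchoose : (u + w).choose 2 ≤ q.choose 2 + w * n := by
    calc (u + w).choose 2 ≤ (q + w).choose 2 := Nat.choose_le_choose 2 (by omega)
      _ ≤ q.choose 2 + w * (q + w) := Pool.Agent.T9h36.choose_two_add q w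
      _ ≤ q.choose 2 + w * n := Nat.add_le_add_left (Nat.mul_le_mul_left _ hfit) _
  have haX : a ≤ a * 2 ^ (2 * b) := Nat.le_mul_of_pos_right _ (by positivity)
  have key := Gr.alt_core (d := d) S (by omega) (by omega) n q w L M dd y z hcardG.symm hcardV hdn
    hard C hd hs' hM hpos hneg
    (fun _ => by omega)
    (fun i hi => by
      have h5 := hzle i hi
      omega)
    (fun i hi => by
      have h5 := h3 i hi
      omega)
    (fun i hi => by
      have h5 := h4 i hi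
      omega)
  rcases key with key | key
  · rw [Nat.mul_sub, mul_one]
    omega
  · omega

end Pool.Agent.T9h34.S
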