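import Pool.Agent.T9h34.Reads

set_option autoImplicit false

/-!
# A potential for the values read by the non-monotone gates

Along a chain of inputs the values read by `t` gates of fan-in `d` change at most `d (2 ^ t - 1)`
times.
-/

namespace Pool.Agent.T9h34

open Finset

section pot

variable {ι : Type*}

/-- The number of true values that a gate reads. -/
def Gate.trues (g : Gate ι) (x : ι → Bool) (vals : List Bool) : ℕ :=
  (g.args.map (fun a => a.eval x vals)).count true

/-- The number of true values read, summed over all other gates and all values of the earlier other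
gates. -/
def pot (x : ι → Bool) : List Bool → List (Gate ι) → ℕ
  | _, [] => 0
  | vals, g :: gs => if g.isOther then
      g.trues x vals + (pot x (vals ++ [false]) gs + pot x (vals ++ [true]) gs)
    else pot x (vals ++ [g.eval x vals]) gs

/-- Pointwise comparison of lists of values of the same length. -/
def LeL (l l' : List Bool) : Prop :=
  l.length = l'.length ∧ ∀ j, l.getD j false = true → l'.getD j false = true

theorem LeL.append {l l' : List Bool} (h : LeL l l') {b b' : Bool} (hb : b = true → b' = true) :
    LeL (l ++ [b]) (l' ++ [b']) := by
  refine ⟨by simp [h.1], ?_⟩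
  intro j hj
  rcases lt_trichotomy j l.length with hj' | hj' | hj'
  · rw [getD_append_lt hj'] at hj
    rw [getD_append_lt (by rw [← h.1]; exact hj')]
    exact h.2 j hj
  · rw [getD_append_eq hj'] at hj
    rw [getD_append_eq (by rw [← h.1]; exact hj')]
    exact hb hj
  · rw [List.getD_eq_default] at hj
    · exact absurd hj (by simp)
    · simp only [List.length_append, List.length_singleton]
      omega

theorem count_le_of (x y : ι → Bool) (l l' : List Bool) (as : List (Src ι))
    (h : ∀ a ∈ as, a.eval x l = true → a.eval y l' = true) :
    (as.map (fun a => a.eval x l)).count true ≤ (as.map (fun a => a.eval y l')).count true ∧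
    ((as.map (fun a => a.eval x l)).count true = (as.map (fun a => a.eval y l')).count true →
      ∀ a ∈ as, a.eval x l = a.eval y l') := by
  induction as with
  | nil => simp
  | cons a as ih =>
    obtain ⟨h1, h2⟩ := ih (fun b hb => h b (by simp [hb]))
    have h3 := h a (by simp)
    simp only [List.map_cons, List.count_cons, List.mem_cons, forall_eq_or_imp]
    cases hx : a.eval x l <;> cases hy : a.eval y l'
    · simp only [beq_iff_eq, Bool.false_eq_true, if_false, Nat.add_zero, true_and]
      exact ⟨h1, h2⟩
    · simp only [beq_iff_eq, Bool.false_eq_true, if_false, Nat.add_zero, if_true]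
      exact ⟨by omega, fun he => by omega⟩
    · rw [hx, hy] at h3
      simp at h3
    · simp only [beq_iff_eq, if_true, true_and]
      exact ⟨by omega, fun he => h2 (by omega)⟩

theorem trues_le {x y : ι → Bool} (hxy : ∀ i, x i = true → y i = true) {l l' : List Bool}
    (hl : LeL l l') (g : Gate ι) : g.trues x l ≤ g.trues y l' :=
  (count_le_of x y l l' g.args (fun a _ => Src.eval_mono hxy hl.2 a)).1

theorem trues_eq {x y : ι → Bool} (hxy : ∀ i, x i = true → y i = true) {l l' : List Bool}
    (hl : LeL l l') (g : Gate ι) (h : g.trues x l = g.trues y l') :
    ∀ a ∈ g.args, a.eval x l = a.eval y l' :=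
  (count_le_of x y l l' g.args (fun a _ => Src.eval_mono hxy hl.2 a)).2 h

theorem pot_le {x y : ι → Bool} (hxy : ∀ i, x i = true → y i = true) (gs : List (Gate ι)) :
    ∀ {l l' : List Bool}, LeL l l' → pot x l gs ≤ pot y l' gs := by
  induction gs with
  | nil => intro l l' _; simp [pot]
  | cons g gs ih =>
    intro l l' hl
    unfold pot
    cases hg : g.isOther with
    | true =>
      simp only [if_true]
      exact Nat.add_le_add (trues_le hxy hl g)
        (Nat.add_le_add (ih (hl.append id)) (ih (hl.append id)))
    | false =>
      simp only [Bool.false_eq_true, if_false]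
      exact ih (hl.append (Gate.eval_mono hxy hl.2 g hg))

theorem pot_bound {dd : ℕ} (x : ι → Bool) (gs : List (Gate ι))
    (hd : ∀ g ∈ gs, g.args.length ≤ dd) :
    ∀ l : List Bool, pot x l gs + dd ≤ dd * 2 ^ gs.countP Gate.isOther := by
  induction gs with
  | nil => intro l; simp [pot]
  | cons g gs ih =>
    intro l
    have ih' := ih (fun g' hg' => hd g' (by simp [hg']))
    unfold pot
    cases hg : g.isOther with
    | true =>
      rw [List.countP_cons, hg]
      simp only [if_true]
      have h1 : g.trues x l ≤ dd := by
        refine le_trans ?_ (hd g (by simp))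
        unfold Gate.trues
        refine List.count_le_length.trans ?_
        simp
      have h2 := ih' (l ++ [false])
      have h3 := ih' (l ++ [true])
      rw [pow_succ]
      nlinarith
    | false =>
      rw [List.countP_cons, hg]
      simp only [Bool.false_eq_true, if_false, Nat.add_zero]
      exact ih' _

/-- Continue a run. -/
def runFrom (x : ι → Bool) (vals : List Bool) (gs : List (Gate ι)) : List Bool :=
  gs.foldl (fun vals g => vals ++ [g.eval x vals]) vals

theorem eval_eq_of_args {x y : ι → Bool} {l l' : List Bool} {g : Gate ι} (hg : g.isOther = true)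
    (h : ∀ a ∈ g.args, a.eval x l = a.eval y l') : g.eval x l = g.eval y l' := by
  cases g with
  | and a b => simp [Gate.isOther] at hg
  | or a b => simp [Gate.isOther] at hg
  | other args φ =>
    simp only [Gate.eval]
    congr 1
    exact List.map_congr_left h

theorem args_of_not {g : Gate ι} (hg : g.isOther = false) : g.args = [] := by
  cases g with
  | and a b => rfl
  | or a b => rfl
  | other args φ => simp [Gate.isOther] at hg

theorem pot_eq {x y : ι → Bool} (hxy : ∀ i, x i = true → y i = true) (gs : List (Gate ι)) :
    ∀ {l l' : List Bool}, LeL l l' → pot x l gs = pot y l' gs →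
      ∀ (j : ℕ) (g : Gate ι), gs[j]? = some g → ∀ a ∈ g.args,
        a.eval x (runFrom x l (gs.take j)) = a.eval y (runFrom y l' (gs.take j)) := by
  induction gs with
  | nil => intro l l' _ _ j g hg; simp at hg
  | cons g gs ih =>
    intro l l' hl he j g' hj a ha
    unfold pot at he
    cases hg : g.isOther with
    | true =>
      rw [hg] at he
      simp only [if_true] at he
      have h1 := trues_le hxy hl g
      have h2 := pot_le hxy gs (hl.append (b := false) (b' := false) id)
      have h3 := pot_le hxy gs (hl.append (b := true) (b' := true) id)
      have h4 := trues_eq hxy hl g (by omega)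
      cases j with
      | zero =>
        simp only [List.getElem?_cons_zero, Option.some.injEq] at hj
        subst hj
        exact h4 a ha
      | succ j =>
        simp only [List.getElem?_cons_succ] at hj
        simp only [List.take_succ_cons, runFrom, List.foldl_cons]
        rw [← eval_eq_of_args hg h4]
        cases hv : g.eval x l with
        | false => exact ih (hl.append id) (by omega) j g' hj a ha
        | true => exact ih (hl.append id) (by omega) j g' hj a ha
    | false =>
      rw [hg] at he
      simp only [Bool.false_eq_true, if_false] at he
      cases j with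
      | zero =>
        simp only [List.getElem?_cons_zero, Option.some.injEq] at hj
        subst hj
        rw [args_of_not hg] at ha
        simp at ha
      | succ j =>
        simp only [List.getElem?_cons_succ] at hj
        simp only [List.take_succ_cons, runFrom, List.foldl_cons]
        exact ih (hl.append (Gate.eval_mono hxy hl.2 g hg)) he j g' hj a ha

/-- The potential of a circuit. -/
def Circuit.pot (C : Circuit ι) (x : ι → Bool) : ℕ := Pool.Agent.T9h34.pot x [] C.gates

theorem leL_nil : LeL [] [] := ⟨rfl, fun _ h => h⟩

theorem Circuit.pot_mono (C : Circuit ι) {x y : ι → Bool} (hxy : ∀ i, x i = true → y i = true) :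
    C.pot x ≤ C.pot y := pot_le hxy C.gates leL_nil

theorem Circuit.pot_lt (C : Circuit ι) {x y : ι → Bool} (hxy : ∀ i, x i = true → y i = true)
    (h : C.reads x ≠ C.reads y) : C.pot x < C.pot y := by
  refine lt_of_le_of_ne (C.pot_mono hxy) ?_
  intro he
  apply h
  unfold Circuit.reads
  apply List.map_congr_left
  intro j _
  unfold Circuit.readsAt
  cases hg : C.gates[j]? with
  | none => rfl
  | some g =>
    simp only
    apply List.map_congr_left
    intro a ha
    exact pot_eq hxy C.gates leL_nil he j g hg a ha

theorem Circuit.pot_bound (C : Circuit ι) {dd : ℕ} (hd : C.FanIn dd) (x : ι → Bool) :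
    C.pot x + dd ≤ dd * 2 ^ C.numOther := by
  apply Pool.Agent.T9h34.pot_bound
  intro g hg
  cases g with
  | and a b => simp [Gate.args]
  | or a b => simp [Gate.args]
  | other args φ => exact hd args φ hg

theorem Circuit.numReads_le (C : Circuit ι) {dd : ℕ} (hd : C.FanIn dd) :
    C.numReads ≤ dd * C.size := by
  unfold Circuit.numReads Circuit.size
  have h1 := List.sum_le_card_nsmul (C.gates.map (fun g => g.args.length)) dd (by
    intro v hv
    rw [List.mem_map] at hv
    obtain ⟨g, hg, rfl⟩ := hv
    cases g with
    | and a b => simp [Gate.args]
    | or a b => simp [Gate.args]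
    | other args φ => exact hd args φ hg)
  rw [List.length_map, smul_eq_mul, mul_comm] at h1
  exact h1

end pot

end Pool.Agent.T9h34
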