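import Pool.Agent.T9h34.S.Pad
import Pool.Agent.T9h36.TwoSlices

set_option autoImplicit false

/-!
# Monotone circuits that are correct on two slices
-/

namespace Pool.Agent.T9h34.S

open Finset Pool.Agent.T9h34 Pool.Agent.T9h34.G
open scoped Classical

/-- A complete graph on a set of vertices. -/
theorem exists_clique_graph {V : Type} [Fintype V] (G : SimpleGraph V) (Q : Finset V)
    (hQ : G.IsClique (Q : Set V)) : ∃ G1 : SimpleGraph V, G1 ≤ G ∧
      G1.IsClique (Q : Set V) ∧ G1.edgeSet.ncard = Q.card.choose 2 := by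
  refine ⟨(⊤ : SimpleGraph {x // x ∈ Q}).map (Function.Embedding.subtype _), ?_, ?_, ?_⟩
  · intro x y h
    rw [SimpleGraph.map_adj] at h
    obtain ⟨x', y', h1, rfl, rfl⟩ := h
    exact hQ x'.2 y'.2 (fun e => h1 (Subtype.ext e))
  · intro x hx y hy hxy
    rw [SimpleGraph.map_adj]
    exact ⟨⟨x, hx⟩, ⟨y, hy⟩, fun e => hxy (congrArg Subtype.val e), rfl, rfl⟩
  · rw [SimpleGraph.edgeSet_map, Set.ncard_image_of_injective _ (Function.Embedding.injective _),
      Pool.Agent.T9h36.ncard_edgeSet_eq, SimpleGraph.card_edgeFinset_top_eq_card_choose_two,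
      Fintype.card_coe]

theorem accepts_mono {n : ℕ} (C : Circuit (Fin n × Fin n)) (hC : ∀ g ∈ C.gates, g.IsMono)
    {G G' : SimpleGraph (Fin n)} (h : G ≤ G') (hG : C.eval (graphInput G) = true) :
    C.eval (graphInput G') = true := by
  refine Circuit.eval_mono ?_ C hC hG
  intro p hp
  unfold graphInput at hp ⊢
  rw [decide_eq_true_eq] at hp ⊢
  exact h hp

theorem slice_core {a b k m u d : ℕ} (S : Row a b → Fin k → Fin m) (hk : 0 < k) (ha : 0 < a)
    (n K m1 m2 w l : ℕ) (hK : K = Fintype.card (Grp a b k u))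
    (hw : Fintype.card (Vtx a b k u) = u + w) (hn : u + d + w = n)
    (hard : ∀ C : Circuit (Ground a b), (∀ g ∈ C.gates, g.IsMono) → C.size < 2 ^ l →
        (∀ s, C.eval (chi (wordSet (sparseCode S) s)) = true) →
        ∃ U : Finset (Ground a b), (¬ ∃ s, wordSet (sparseCode S) s ⊆ U) ∧
          C.eval (chi U) = true)
    (C : Circuit (Fin n × Fin n)) (hC : ∀ g ∈ C.gates, g.IsMono) (hs : C.size < 2 ^ l)
    (hpos : ∀ G : SimpleGraph (Fin n), G.edgeSet.ncard = m1 →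
      (∃ c : Finset (Fin n), G.IsClique (c : Set (Fin n)) ∧ K ≤ c.card) →
        C.eval (graphInput G) = true)
    (hneg : ∀ G : SimpleGraph (Fin n), G.edgeSet.ncard = m2 →
      (¬ ∃ c : Finset (Fin n), G.IsClique (c : Set (Fin n)) ∧ K ≤ c.card) →
        ¬ C.eval (graphInput G) = true)
    (h1 : K.choose 2 ≤ m1)
    (h2 : m2 + w * n ≤ SimpleGraph.extremalNumber n (⊤ : SimpleGraph (Fin K)))
    (h3 : m1 + a * 2 ^ (2 * b) ≤ m2)
    (h4 : (u + w).choose 2 + a * 2 ^ (2 * b) ≤ m2) : False := by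
  have hcardG : Fintype.card (Grp a b k u) = a * 2 + (a * (2 * (b * k)) + u) := by
    simp only [Grp, Fintype.card_sum, Fintype.card_prod, Fintype.card_fin, Fintype.card_bool]
  have hX : Fintype.card (Ground a b) = a * 2 ^ (2 * b) := by
    simp [Ground, Sym, ZMod.card]
  have hK2 : 2 ≤ K := by omega
  have hcard : Fintype.card (VV a b k u d) = Fintype.card (Fin n) := by
    rw [Fintype.card_sum, hw, Fintype.card_fin, Fintype.card_fin]
    omega
  obtain ⟨ι⟩ := Fintype.card_eq.1 hcard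
  have hc : K - 1 + 1 = Fintype.card (Grp a b k u) := by omega
  obtain ⟨F, hF⟩ : ∃ F, F = (G.graphOf (u := u) S (∅ : Finset (Ground a b))).edgeSet.ncard :=
    ⟨_, rfl⟩
  have hfull : ∀ Z : Finset (Ground a b),
      m2 ≤ (WW S Z (Hg a b k u d (K - 1))).edgeSet.ncard := by
    intro Z
    have := full_ncard S (w := w) hK2 hn Z
    omega
  have hFle : F ≤ (u + w).choose 2 := by
    rw [hF, ← hw]
    exact gr_ncard_choose S ∅
  have hH : m2 ≤ F + (Hg a b k u d (K - 1)).edgeSet.ncard := by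
    have := hfull ∅
    rwa [WW_ncard S ∅ le_rfl, ← hF] at this
  obtain ⟨D, -, hDH, hDc⟩ := exists_between (bot_le : (⊥ : SimpleGraph (VV a b k u d)) ≤
    Hg a b k u d (K - 1)) (e := m2 - F - a * 2 ^ (2 * b)) (by simp) (by omega)
  have hev : ∀ Z : Finset (Ground a b), (C.subst (projW S ι D)).eval (chi Z) =
      C.eval (graphInput (Γ S ι Z D)) := by
    intro Z
    rw [Circuit.eval_subst, pull_projW S ι hDH]
  have hmono' : ∀ g ∈ (C.subst (projW S ι D)).gates, g.IsMono := by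
    intro g hg
    simp only [Circuit.subst, List.mem_map] at hg
    obtain ⟨g', hg', rfl⟩ := hg
    unfold Gate.IsMono
    rw [Gate.isOther_subst]
    exact hC g' hg'
  obtain ⟨U, hU, hUC⟩ := hard (C.subst (projW S ι D)) hmono' (by rw [Circuit.size_subst]; exact hs)
    (by
      intro s
      rw [hev]
      obtain ⟨Q, hQ, hQc⟩ := (Γ_clique S hk ha hc ι hDH).2 ⟨s, subset_rfl⟩
      rw [← hK] at hQc
      obtain ⟨Q', hQ'Q, hQ'c⟩ := Finset.exists_subset_card_eq hQc
      obtain ⟨G1, hG1, hG1c, hG1e⟩ := exists_clique_graph _ Q' (hQ.subset (by exact_mod_cast hQ'Q))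
      rw [hQ'c] at hG1e
      have hFle2 : F ≤ (G.graphOf (u := u) S (wordSet (sparseCode S) s)).edgeSet.ncard := by
        rw [hF]
        exact Set.ncard_le_ncard (SimpleGraph.edgeSet_subset_edgeSet.2
          (gr_mono S (Finset.empty_subset _))) (Set.toFinite _)
      obtain ⟨G2, hG12, hG2, hG2e⟩ := exists_between hG1 (e := m1) (by omega) (by
        rw [Γ_ncard, WW_ncard S _ hDH, hDc]
        omega)
      exact accepts_mono C hC hG2 (hpos G2 hG2e ⟨Q', hG1c.mono hG12, by omega⟩))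
  rw [hev] at hUC
  have hle := gr_ncard_le (u := u) S U
  have hUX : U.card ≤ a * 2 ^ (2 * b) := by
    rw [← hX]
    exact Finset.card_le_univ U
  obtain ⟨G2, hG12, hG2, hG2e⟩ := exists_between (Γ_mono S ι (subset_refl U) hDH) (e := m2) (by
    rw [Γ_ncard, WW_ncard S _ hDH, hDc]
    omega) (by
    rw [Γ_ncard]
    exact hfull U)
  refine hneg G2 hG2e ?_ (accepts_mono C hC hG12 hUC)
  rintro ⟨Q, hQ, hQc⟩
  exact hU ((Γ_clique S hk ha hc ι le_rfl).1 ⟨Q, hQ.mono hG2, by omega⟩)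

theorem lam_pow {y : ℕ} : (2 * y + 25) ^ 7 ≤ 25 ^ 7 * 2 ^ y := by
  induction y with
  | zero => norm_num
  | succ y ih =>
    have h2 : 25 * (2 * (y + 1) + 25) ≤ 27 * (2 * y + 25) := by omega
    have h3 := Nat.pow_le_pow_left h2 7
    rw [mul_pow, mul_pow] at h3
    have h4 : (27 : ℕ) ^ 7 ≤ 2 * 25 ^ 7 := by norm_num
    have h5 : 25 ^ 7 * (2 * (y + 1) + 25) ^ 7 ≤ 25 ^ 7 * (2 * (2 * y + 25) ^ 7) := by
      calc 25 ^ 7 * (2 * (y + 1) + 25) ^ 7 ≤ 27 ^ 7 * (2 * y + 25) ^ 7 := h3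
        _ ≤ (2 * 25 ^ 7) * (2 * y + 25) ^ 7 := Nat.mul_le_mul_right _ h4
        _ = 25 ^ 7 * (2 * (2 * y + 25) ^ 7) := by ring
    have h6 := Nat.le_of_mul_le_mul_left h5 (by norm_num)
    calc (2 * (y + 1) + 25) ^ 7 ≤ 2 * (2 * y + 25) ^ 7 := h6
      _ ≤ 2 * (25 ^ 7 * 2 ^ y) := Nat.mul_le_mul_left _ ih
      _ = 25 ^ 7 * 2 ^ (y + 1) := by rw [pow_succ]; ring

end Pool.Agent.T9h34.S
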