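import Pool.Agent.T9h34.G.Params

set_option autoImplicit false

/-!
Blocks with few variables that are hard for monotone circuits.
-/

namespace Pool.Agent.T9h34.S

open Finset Pool.Agent.T9h34 Pool.Agent.T9h34.G

/-- Arithmetic: `2 log x + 25 ≤ x`. -/
theorem lam_le {x : ℕ} (hx : 100 ≤ x) : 2 * Nat.log 2 x + 25 ≤ x := by
  have h : ∀ y : ℕ, 6 ≤ y → 2 * y + 25 ≤ 2 ^ y := by
    intro y hy
    induction y, hy using Nat.le_induction with
    | base => norm_num
    | succ y hy ih =>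
      rw [pow_succ]
      have : 2 ≤ 2 ^ y := by
        calc 2 = 2 ^ 1 := by norm_num
          _ ≤ 2 ^ y := Nat.pow_le_pow_right (by norm_num) (by omega)
      omega
  have h6 : 6 ≤ Nat.log 2 x := by
    have : Nat.log 2 64 ≤ Nat.log 2 x := Nat.log_mono_right (by omega)
    have h64 : Nat.log 2 64 = 6 := by
      rw [show (64 : ℕ) = 2 ^ 6 by norm_num, Nat.log_pow (by norm_num)]
    omega
  exact (h _ h6).trans (Nat.pow_log_le_self 2 (by omega))

/-- Arithmetic: the number of variables of a block is less than `4 ^ lam`. -/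
theorem pow_big {y : ℕ} : 1013761 * (2 * y + 25) ^ 5 * (2 ^ (y + 1)) ^ 2 < 2 ^ (2 * (2 * y + 25)) := by
  have h : 1013761 * (2 * y + 25) ^ 5 < 2 ^ 46 * 2 ^ (2 * y) := by
    induction y with
    | zero => norm_num
    | succ y ih =>
      have h1 : (2 * (y + 1) + 25) ^ 5 ≤ 4 * (2 * y + 25) ^ 5 := by
        have h2 : 25 * (2 * (y + 1) + 25) ≤ 27 * (2 * y + 25) := by omega
        have h3 := Nat.pow_le_pow_left h2 5
        rw [mul_pow, mul_pow] at h3
        have h4 : (27 : ℕ) ^ 5 ≤ 4 * 25 ^ 5 := by norm_num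
        have h5 : 25 ^ 5 * (2 * (y + 1) + 25) ^ 5 ≤ 25 ^ 5 * (4 * (2 * y + 25) ^ 5) := by
          calc 25 ^ 5 * (2 * (y + 1) + 25) ^ 5 ≤ 27 ^ 5 * (2 * y + 25) ^ 5 := h3
            _ ≤ (4 * 25 ^ 5) * (2 * y + 25) ^ 5 := Nat.mul_le_mul_right _ h4
            _ = 25 ^ 5 * (4 * (2 * y + 25) ^ 5) := by ring
        exact Nat.le_of_mul_le_mul_left h5 (by norm_num)
      calc 1013761 * (2 * (y + 1) + 25) ^ 5 ≤ 1013761 * (4 * (2 * y + 25) ^ 5) :=
            Nat.mul_le_mul_left _ h1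
        _ = 4 * (1013761 * (2 * y + 25) ^ 5) := by ring
        _ < 4 * (2 ^ 46 * 2 ^ (2 * y)) := Nat.mul_lt_mul_of_pos_left ih (by norm_num)
        _ = 2 ^ 46 * 2 ^ (2 * (y + 1)) := by
          rw [show 2 * (y + 1) = 2 * y + 2 by ring, pow_add]; ring
  calc 1013761 * (2 * y + 25) ^ 5 * (2 ^ (y + 1)) ^ 2
      < (2 ^ 46 * 2 ^ (2 * y)) * (2 ^ (y + 1)) ^ 2 :=
        Nat.mul_lt_mul_of_pos_right h (by positivity)
    _ = 2 ^ (46 + 2 * y + (y + 1) * 2) := by rw [← pow_mul, ← pow_add, ← pow_add]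
    _ ≤ 2 ^ (2 * (2 * y + 25)) := Nat.pow_le_pow_right (by norm_num) (by omega)

/-- Circuits with AND and OR gates and with fewer than `2 ^ l` gates err on the block. -/
theorem block {l : ℕ} (hl : 100 ≤ l) :
    ∃ (a b k m : ℕ) (S : Row a b → Fin k → Fin m),
      1 ≤ a ∧ 1 ≤ k ∧ a * 2 ^ (2 * b) ≤ 1013760 * (2 * Nat.log 2 l + 25) ^ 5 * l ^ 2 ∧
      a ≤ 66 * ((2 * Nat.log 2 l + 25) ^ 2 * l) ∧ b ≤ 2 * Nat.log 2 l + 25 ∧
      k = 2 * (2 * Nat.log 2 l + 25) ∧
      2 ^ (2 * b) ≤ 15360 * ((2 * Nat.log 2 l + 25) ^ 3 * l) ∧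
      ∀ C : Circuit (Ground a b), (∀ g ∈ C.gates, g.IsMono) → C.size < 2 ^ l →
        (∀ s, C.eval (chi (wordSet (sparseCode S) s)) = true) →
        ∃ U : Finset (Ground a b), (¬ ∃ s, wordSet (sparseCode S) s ⊆ U) ∧
          C.eval (chi U) = true := by
  obtain ⟨y, hy⟩ : ∃ y, y = Nat.log 2 l := ⟨_, rfl⟩
  obtain ⟨lam, hlam⟩ : ∃ lam, lam = 2 * y + 25 := ⟨_, rfl⟩
  have hlaml : lam ≤ l := by rw [hlam, hy]; exact lam_le hl
  have hlam1 : 1 ≤ lam := by omega
  have hl1 : 1 ≤ l := by omega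
  have hly : l < 2 ^ (y + 1) := by rw [hy]; exact Nat.lt_pow_succ_log_self (by norm_num) l
  rw [← hy, ← hlam]
  set L := 14 * (lam * l) with hL
  have hll : 1 ≤ lam * l := Nat.one_le_iff_ne_zero.2 (by positivity)
  have hL1 : L + 1 ≤ 15 * (lam * l) := by omega
  set q := 256 * lam ^ 2 * (L + 1) with hqdef
  have hq0 : 0 < q := by positivity
  have hq3840 : q ≤ 3840 * (lam ^ 3 * l) := by
    calc q ≤ 256 * lam ^ 2 * (15 * (lam * l)) := Nat.mul_le_mul_left _ hL1
      _ = 3840 * (lam ^ 3 * l) := by ring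
  -- the number of bits
  obtain ⟨b, hb1, hb2⟩ : ∃ b, q ≤ 2 ^ (2 * b) ∧ 2 ^ (2 * b) ≤ 4 * q := by
    have hex : ∃ b, q ≤ 2 ^ (2 * b) := ⟨q, (Nat.lt_two_pow_self).le.trans
      (Nat.pow_le_pow_right (by norm_num) (by omega))⟩
    refine ⟨Nat.find hex, Nat.find_spec hex, ?_⟩
    by_cases h0 : Nat.find hex = 0
    · rw [h0]
      simp only [mul_zero, pow_zero]
      omega
    · have := Nat.find_min hex (m := Nat.find hex - 1) (by omega)
      push Not at this
      have h1 : 2 * Nat.find hex = 2 * (Nat.find hex - 1) + 2 := by omega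
      rw [h1, pow_add]
      omega
  have hb2' : 2 ^ (2 * b) ≤ 15360 * (lam ^ 3 * l) := by
    calc 2 ^ (2 * b) ≤ 4 * q := hb2
      _ ≤ 4 * (3840 * (lam ^ 3 * l)) := Nat.mul_le_mul_left _ hq3840
      _ = 15360 * (lam ^ 3 * l) := by ring
  have hl2 : l ^ 2 ≤ (2 ^ (y + 1)) ^ 2 := Nat.pow_le_pow_left hly.le 2
  have hbig : 1013761 * lam ^ 5 * l ^ 2 < 2 ^ (2 * lam) := by
    rw [hlam]
    exact lt_of_le_of_lt (Nat.mul_le_mul_left _ hl2) pow_big
  have hblam : b ≤ lam := by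
    by_contra hlt
    push Not at hlt
    have h1 : 2 ^ (2 * lam) ≤ 2 ^ (2 * b) := Nat.pow_le_pow_right (by norm_num) (by omega)
    have h2 : 15360 * (lam ^ 3 * l) ≤ 1013761 * lam ^ 5 * l ^ 2 := by
      have h3 : lam ^ 3 * l ≤ lam ^ 5 * l ^ 2 :=
        Nat.mul_le_mul (Nat.pow_le_pow_right hlam1 (by norm_num))
          (by rw [sq]; exact Nat.le_mul_of_pos_left _ (by omega))
      calc 15360 * (lam ^ 3 * l) ≤ 1013761 * (lam ^ 5 * l ^ 2) :=
            Nat.mul_le_mul (by norm_num) h3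
        _ = 1013761 * lam ^ 5 * l ^ 2 := by ring
    omega
  obtain ⟨k, hk⟩ : ∃ k, k = 2 * lam := ⟨_, rfl⟩
  obtain ⟨m, hm⟩ : ∃ m, m = 64 * (lam * b * l) := ⟨_, rfl⟩
  obtain ⟨a, ha⟩ : ∃ a, a = m + 2 * lam := ⟨_, rfl⟩
  have hb0 : 1 ≤ b := by
    by_contra h0
    have : b = 0 := by omega
    rw [this] at hb1
    simp only [mul_zero, pow_zero] at hb1
    have : 256 * 1 * 1 ≤ 256 * lam ^ 2 * (L + 1) :=
      Nat.mul_le_mul (Nat.mul_le_mul_left _ (Nat.one_le_pow _ _ hlam1)) (by omega)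
    omega
  have hlamlle : lam ≤ lam ^ 2 * l := by
    calc lam = lam * 1 * 1 := by ring
      _ ≤ lam * lam * l := Nat.mul_le_mul (Nat.mul_le_mul_left _ hlam1) hl1
      _ = lam ^ 2 * l := by ring
  have hbl : lam * b * l ≤ lam ^ 2 * l := by
    apply Nat.mul_le_mul_right
    rw [sq]
    exact Nat.mul_le_mul_left _ hblam
  have ha66 : a ≤ 66 * (lam ^ 2 * l) := by omega
  have haX : a * 2 ^ (2 * b) ≤ 1013760 * lam ^ 5 * l ^ 2 := by
    calc a * 2 ^ (2 * b) ≤ (66 * (lam ^ 2 * l)) * (15360 * (lam ^ 3 * l)) :=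
          Nat.mul_le_mul ha66 hb2'
      _ = 1013760 * lam ^ 5 * l ^ 2 := by ring
  have hXcard : Fintype.card (Ground a b) + 1 ≤ 2 ^ (2 * lam) := by
    have h1 : Fintype.card (Ground a b) = a * 2 ^ (2 * b) := by
      simp [Ground, Sym, ZMod.card]
    rw [h1]
    have h2 : 1013760 * lam ^ 5 * l ^ 2 + 1 ≤ 1013761 * lam ^ 5 * l ^ 2 := by
      have h3 : 1 ≤ lam ^ 5 * l ^ 2 := Nat.one_le_iff_ne_zero.2 (by positivity)
      have h4 : 1013760 * lam ^ 5 * l ^ 2 = 1013760 * (lam ^ 5 * l ^ 2) := by ring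
      have h5 : 1013761 * lam ^ 5 * l ^ 2 = 1013761 * (lam ^ 5 * l ^ 2) := by ring
      omega
    omega
  have hm0 : 0 < m := by
    rw [hm]
    have : 0 < lam * b * l := Nat.mul_pos (Nat.mul_pos hlam1 hb0) hl1
    omega
  have ha0 : 1 ≤ a := by omega
  -- the code
  obtain ⟨S, hS⟩ := exists_sparse (R := Row a b) (k := k) (m := m) (2 * (2 * l) * (2 * b)) hm0
    (by
      have h0 : Fintype.card (Row a b) = a * (2 * b) := by
        simp [Row]
      rw [h0, hk]
      have h1 : 8 * b ≤ 4 * 2 ^ (2 * b) := by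
        have : 2 * b < 2 ^ (2 * b) := Nat.lt_two_pow_self
        omega
      have h2 : 4 * (a * (2 * b)) ≤ 4 * (a * 2 ^ (2 * b)) := by
        calc 4 * (a * (2 * b)) = a * (8 * b) := by ring
          _ ≤ a * (4 * 2 ^ (2 * b)) := Nat.mul_le_mul_left _ h1
          _ = 4 * (a * 2 ^ (2 * b)) := by ring
      have h3 : a * (8 * b) ≤ 1013761 * lam ^ 5 * l ^ 2 := by
        -- a direct bound
        calc a * (8 * b) ≤ (66 * (lam ^ 2 * l)) * (8 * lam) :=
              Nat.mul_le_mul ha66 (Nat.mul_le_mul_left _ hblam)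
          _ = 528 * (lam ^ 3 * l) := by ring
          _ ≤ 1013761 * (lam ^ 5 * l ^ 2) := by
              apply Nat.mul_le_mul (by norm_num)
              exact Nat.mul_le_mul (Nat.pow_le_pow_right hlam1 (by norm_num))
                (by rw [sq]; exact Nat.le_mul_of_pos_left _ (by omega))
          _ = 1013761 * lam ^ 5 * l ^ 2 := by ring
      have h4 : 4 * (a * (2 * b)) = a * (8 * b) := by ring
      omega)
    (by
      rw [hm, hk]
      apply le_of_eq
      ring)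
  have hspread := spread_code (sparseCode S) (sparseCode_indep S hS)
  refine ⟨a, b, k, m, S, ha0, by omega, haX, ha66, hblam, hk, hb2', ?_⟩
  intro C hC hCs hCpos
  -- noise
  set D := 2 * ((L + 1) * lam) with hD
  have hD0 : 0 < D := by positivity
  have h4l : 2 * (2 * l) < 2 ^ lam := by
    have h1 : 2 ^ (y + 3) ≤ 2 ^ lam := Nat.pow_le_pow_right (by norm_num) (by omega)
    have h2 : 2 ^ (y + 3) = 4 * 2 ^ (y + 1) := by rw [show y + 3 = (y + 1) + 2 by ring, pow_add]; ring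
    omega
  have hcov := covers_enNoise (X := Ground a b) hD0 (J := lam) (c := 2 * (2 * l)) hlam1 h4l
  have hκ : (0 : ℝ) ≤ (1 / 2 : ℝ) ^ (2 * b) := pow_nonneg (by norm_num) _
  have hBκ : 32 * (lam : ℝ) * D * (1 / 2 : ℝ) ^ (2 * b) ≤ 1 / 4 := by
    have h1 : ((q : ℕ) : ℝ) ≤ ((2 ^ (2 * b) : ℕ) : ℝ) := by exact_mod_cast hb1
    have h2 : (1 / 2 : ℝ) ^ (2 * b) * ((2 ^ (2 * b) : ℕ) : ℝ) = 1 := by
      push_cast
      rw [← mul_pow]; norm_num
    have h3 : 32 * (lam : ℝ) * D = ((q : ℕ) : ℝ) / 4 := by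
      rw [hD, hqdef]
      push_cast
      ring
    rw [h3]
    calc ((q : ℕ) : ℝ) / 4 * (1 / 2 : ℝ) ^ (2 * b)
        ≤ ((2 ^ (2 * b) : ℕ) : ℝ) / 4 * (1 / 2 : ℝ) ^ (2 * b) := by
          apply mul_le_mul_of_nonneg_right _ hκ
          linarith
      _ = 1 / 4 := by linear_combination (1 / 4) * h2
  have hB1 : 1 ≤ 32 * (lam : ℝ) * D := by
    have h1 : (1 : ℝ) ≤ lam := by exact_mod_cast hlam1
    have h2 : (1 : ℝ) ≤ D := by exact_mod_cast hD0
    nlinarith
  set N := enNoise (X := Ground a b) hD0 lam with hN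
  have hfew : N.iter (L + 1)
      (fun U => ind (∃ ω, wordSet (sparseCode S) ω ⊆ U)) ≤ (1 / 2 : ℝ) ^ (2 * lam) := by
    refine (few_enNoise hD0 lam (L + 1) (wordSet (sparseCode S))
      (card_wordSet (sparseCode S))).trans ?_
    rw [Fintype.card_fun, ZMod.card, Fintype.card_fin]
    have h1 : (((L + 1) * lam : ℕ) : ℝ) / (D : ℝ) ≤ 1 / 2 := by
      rw [div_le_iff₀ (by exact_mod_cast hD0), hD]
      push_cast
      linarith
    calc (((2 ^ m : ℕ) : ℝ)) * ((((L + 1) * lam : ℕ) : ℝ) / (D : ℝ)) ^ a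
        ≤ ((2 ^ m : ℕ) : ℝ) * (1 / 2) ^ a := by
          apply mul_le_mul_of_nonneg_left _ (by positivity)
          exact pow_le_pow_left₀ (by positivity) h1 a
      _ = (1 / 2 : ℝ) ^ (2 * lam) := by
          rw [ha, pow_add]
          push_cast
          rw [← mul_assoc, ← mul_pow]
          norm_num
  have herr := Pool.Agent.T9h34.G.err_bound (X := Ground a b) (r := 8) (s := C.size) hlaml hlam1 hCs
    (by
      calc 8 < 2 ^ (2 * 2) := by norm_num
        _ ≤ 2 ^ (2 * lam) := Nat.pow_le_pow_right (by norm_num) (by omega)) hXcard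
  have hdom := Pool.Agent.T9h34.G.domination (N := N) (L := L) (e := 2 * l) (by omega) (by omega) hB1 hcov
    (wordSet (sparseCode S)) hκ hspread hBκ C hC
  have hEv : Ev (wordSet (sparseCode S)) (fun Z => ind (C.eval (chi Z) = true)) = 1 := by
    unfold Ev
    have : ∀ ω : Fin m → ZMod 2, ind (C.eval (chi (wordSet (sparseCode S) ω)) = true) = 1 :=
      fun ω => ind_of (hCpos ω)
    simp only [this]
    rw [Finset.sum_const, Finset.card_univ, nsmul_eq_mul, mul_one]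
    apply div_self
    have : (0 : ℝ) < Fintype.card (Fin m → ZMod 2) := by exact_mod_cast Fintype.card_pos
    exact this.ne'
  rw [hEv] at hdom
  by_contra hcon
  push Not at hcon
  have hle : N.iter (L + 1) (fun U => ind (C.eval (chi U) = true)) ≤
      N.iter (L + 1) (fun U => ind (∃ ω, wordSet (sparseCode S) ω ⊆ U)) := by
    apply N.iter_mono
    intro U
    apply ind_mono
    intro h
    by_contra hne
    exact hcon U (by
      intro s hs
      exact hne ⟨s, hs⟩) h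
  have h16 : (1 / 2 : ℝ) ^ (2 * lam) ≤ 1 / 16 := by
    calc (1 / 2 : ℝ) ^ (2 * lam) ≤ (1 / 2) ^ 4 :=
          pow_le_pow_of_le_one (by norm_num) (by norm_num) (by omega)
      _ = 1 / 16 := by norm_num
  have herr' : (8 : ℝ) * Pool.Agent.T9h34.G.err (Ground a b) L (2 * l) C.size ≤ 1 := by exact_mod_cast herr
  unfold Pool.Agent.T9h34.G.err at herr'
  linarith

end Pool.Agent.T9h34.S
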