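import Pool.Agent.T9h34.S.Block

set_option autoImplicit false

/-!
Blocks with few variables on which monotone circuits cannot distinguish random codewords from
noise.
-/

namespace Pool.Agent.T9h34.S

open Finset Pool.Agent.T9h34 Pool.Agent.T9h34.G

/-- Arithmetic: the number of variables of a block is less than `4 ^ lam`. -/
theorem pow_big3 {y : ℕ} : 1013761 * (2 * y + 25) ^ 5 * (2 ^ (y + 1)) ^ 3 < 2 ^ (2 * (2 * y + 25)) := by
  have h : 1013761 * (2 * y + 25) ^ 5 < 2 ^ 47 * 2 ^ y := by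
    induction y with
    | zero => norm_num
    | succ y ih =>
      have h1 : (2 * (y + 1) + 25) ^ 5 ≤ 2 * (2 * y + 25) ^ 5 := by
        have h2 : 25 * (2 * (y + 1) + 25) ≤ 27 * (2 * y + 25) := by omega
        have h3 := Nat.pow_le_pow_left h2 5
        rw [mul_pow, mul_pow] at h3
        have h4 : (27 : ℕ) ^ 5 ≤ 2 * 25 ^ 5 := by norm_num
        have h5 : 25 ^ 5 * (2 * (y + 1) + 25) ^ 5 ≤ 25 ^ 5 * (2 * (2 * y + 25) ^ 5) := by
          calc 25 ^ 5 * (2 * (y + 1) + 25) ^ 5 ≤ 27 ^ 5 * (2 * y + 25) ^ 5 := h3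
            _ ≤ (2 * 25 ^ 5) * (2 * y + 25) ^ 5 := Nat.mul_le_mul_right _ h4
            _ = 25 ^ 5 * (2 * (2 * y + 25) ^ 5) := by ring
        exact Nat.le_of_mul_le_mul_left h5 (by norm_num)
      calc 1013761 * (2 * (y + 1) + 25) ^ 5 ≤ 1013761 * (2 * (2 * y + 25) ^ 5) :=
            Nat.mul_le_mul_left _ h1
        _ = 2 * (1013761 * (2 * y + 25) ^ 5) := by ring
        _ < 2 * (2 ^ 47 * 2 ^ y) := Nat.mul_lt_mul_of_pos_left ih (by norm_num)
        _ = 2 ^ 47 * 2 ^ (y + 1) := by rw [pow_succ]; ring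
  calc 1013761 * (2 * y + 25) ^ 5 * (2 ^ (y + 1)) ^ 3
      < (2 ^ 47 * 2 ^ y) * (2 ^ (y + 1)) ^ 3 :=
        Nat.mul_lt_mul_of_pos_right h (by positivity)
    _ = 2 ^ (47 + y + (y + 1) * 3) := by rw [← pow_mul, ← pow_add, ← pow_add]
    _ ≤ 2 ^ (2 * (2 * y + 25)) := Nat.pow_le_pow_right (by norm_num) (by omega)

/-- The union of `k` independent noise sets. -/
noncomputable def powOp {X : Type*} [DecidableEq X] (N : NoiseOp X) (k : ℕ) : NoiseOp X where
  E := N.iter k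
  mono' _ _ h := N.iter_mono k h
  add' F G := N.iter_add k F G
  const_mul' c F := N.iter_const_mul k c F
  const' c := N.iter_const k c

theorem powOp_iter {X : Type*} [DecidableEq X] (N : NoiseOp X) (k j : ℕ) (F : Finset X → ℝ) :
    (powOp N k).iter j F = N.iter (j * k) F := by
  induction j generalizing F with
  | zero => simp [NoiseOp.iter]
  | succ j ih =>
    have h1 : (j + 1) * k = k + j * k := by ring
    rw [h1, N.iter_add_rounds]
    simp only [NoiseOp.iter]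
    change N.iter k _ = _
    congr 1
    funext z
    exact ih _

/-- The error term is negligible. -/
theorem err_small {X : Type*} [Fintype X] [DecidableEq X] {lam l s : ℕ}
    (hlam : 1 ≤ lam) (hl1 : 1 ≤ l) (hs : s < 2 ^ l)
    (hXcard : Fintype.card X + 1 ≤ 2 ^ (2 * lam)) :
    Pool.Agent.T9h34.G.err X (14 * (lam * l)) (2 * l) s ≤ (1 / 2 : ℝ) ^ (2 * l) := by
  set L := 14 * (lam * l) with hL
  have hll : l ≤ lam * l := Nat.le_mul_of_pos_left _ hlam
  have hsm : ((smalls (X := X) (2 * (2 * l))).card : ℝ) ≤ 2 ^ (8 * (lam * l)) := by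
    have h1 := card_smalls_le (X := X) (2 * (2 * l))
    have h2 : (Fintype.card X + 1) ^ (2 * (2 * l)) ≤ (2 ^ (2 * lam)) ^ (2 * (2 * l)) :=
      Nat.pow_le_pow_left hXcard _
    have h3 : (2 ^ (2 * lam)) ^ (2 * (2 * l)) = 2 ^ (8 * (lam * l)) := by
      rw [← pow_mul]; congr 1; ring
    rw [h3] at h2
    exact_mod_cast le_trans h1 h2
  unfold Pool.Agent.T9h34.G.err
  have hsR : (s : ℝ) + 1 ≤ 2 ^ l := by exact_mod_cast hs
  have hs0 : (0 : ℝ) ≤ s := Nat.cast_nonneg s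
  have key : ∀ i j : ℕ, i + 3 * l ≤ j → (2 : ℝ) ^ i * (1 / 2 : ℝ) ^ j ≤ (1 / 2) ^ (3 * l) := by
    intro i j hij
    obtain ⟨d, rfl⟩ := Nat.exists_eq_add_of_le hij
    have h1 : (1 / 2 : ℝ) ^ (i + 3 * l + d) = (1 / 2) ^ i * ((1 / 2) ^ (3 * l) * (1 / 2) ^ d) := by
      rw [← pow_add, ← pow_add]; congr 1; ring
    have h2 : (2 : ℝ) ^ i * (1 / 2) ^ i = 1 := by rw [← mul_pow]; norm_num
    have h3 : (1 / 2 : ℝ) ^ d ≤ 1 := pow_le_one₀ (by norm_num) (by norm_num)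
    have h4 : (0 : ℝ) ≤ (1 / 2 : ℝ) ^ (3 * l) := by positivity
    calc (2 : ℝ) ^ i * (1 / 2 : ℝ) ^ (i + 3 * l + d)
        = ((2 : ℝ) ^ i * (1 / 2) ^ i) * ((1 / 2) ^ (3 * l) * (1 / 2) ^ d) := by rw [h1]; ring
      _ = (1 / 2) ^ (3 * l) * (1 / 2) ^ d := by rw [h2, one_mul]
      _ ≤ (1 / 2) ^ (3 * l) * 1 := mul_le_mul_of_nonneg_left h3 h4
      _ = _ := mul_one _
  have h1 : (s : ℝ) * (1 / 4 : ℝ) ^ (2 * l) ≤ (1 / 2) ^ (3 * l) := by
    have h2 : (1 / 4 : ℝ) ^ (2 * l) = (1 / 2) ^ (4 * l) := by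
      have : (1 / 4 : ℝ) = (1 / 2) ^ 2 := by norm_num
      rw [this, ← pow_mul]; congr 1; ring
    rw [h2]
    refine le_trans ?_ (key l (4 * l) (by omega))
    apply mul_le_mul_of_nonneg_right (by linarith) (by positivity)
  have h2 : 3 * (((s : ℝ) + 1) * (((smalls (X := X) (2 * (2 * l))).card : ℝ)
      * (1 / 2 : ℝ) ^ L)) ≤ (1 / 2) ^ (3 * l) := by
    have hp1 : (0 : ℝ) ≤ (1 / 2 : ℝ) ^ L := pow_nonneg (by norm_num) _
    have hc0 : (0 : ℝ) ≤ ((smalls (X := X) (2 * (2 * l))).card : ℝ) := Nat.cast_nonneg _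
    refine le_trans ?_ (key (2 + l + 8 * (lam * l)) L (by omega))
    calc 3 * (((s : ℝ) + 1) * (((smalls (X := X) (2 * (2 * l))).card : ℝ) * (1 / 2 : ℝ) ^ L))
        ≤ 4 * (2 ^ l * (2 ^ (8 * (lam * l)) * (1 / 2 : ℝ) ^ L)) := by
          apply mul_le_mul (by norm_num) _ _ (by norm_num)
          · apply mul_le_mul hsR _ (mul_nonneg hc0 hp1) (pow_nonneg (by norm_num) _)
            exact mul_le_mul_of_nonneg_right hsm hp1
          · exact mul_nonneg (by linarith) (mul_nonneg hc0 hp1)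
      _ = 2 ^ (2 + l + 8 * (lam * l)) * (1 / 2 : ℝ) ^ L := by
          rw [pow_add, pow_add]; norm_num; ring
  have h3 : (1 / 2 : ℝ) ^ (3 * l) + (1 / 2) ^ (3 * l) ≤ (1 / 2) ^ (2 * l) := by
    have h4 : (1 / 2 : ℝ) ^ (3 * l) = (1 / 2) ^ (2 * l) * (1 / 2) ^ l := by
      rw [← pow_add]; congr 1; ring
    have h5 : (1 / 2 : ℝ) ^ l ≤ 1 / 2 := by
      calc (1 / 2 : ℝ) ^ l ≤ (1 / 2) ^ 1 :=
            pow_le_pow_of_le_one (by norm_num) (by norm_num) hl1
        _ = 1 / 2 := by norm_num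
    have h6 : (0 : ℝ) ≤ (1 / 2 : ℝ) ^ (2 * l) := by positivity
    rw [h4]
    nlinarith
  linarith

/-- Circuits with AND and OR gates and with fewer than `2 ^ l` gates do not distinguish random
codewords from noise. -/
theorem block_avg {l g : ℕ} (hl : 100 ≤ l) (hg1 : 1 ≤ g) (hgl : g ≤ l) :
    ∃ (a b k m : ℕ) (S : Row a b → Fin k → Fin m) (N' : NoiseOp (Ground a b)),
      1 ≤ a ∧ 1 ≤ k ∧ a * 2 ^ (2 * b) ≤ 1013760 * (2 * Nat.log 2 l + 25) ^ 5 * l ^ 2 * g ∧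
      a ≤ 66 * ((2 * Nat.log 2 l + 25) ^ 2 * l) ∧ b ≤ 2 * Nat.log 2 l + 25 ∧
      k = 2 * (2 * Nat.log 2 l + 25) ∧
      2 ^ (2 * b) ≤ 15360 * ((2 * Nat.log 2 l + 25) ^ 3 * l) * g ∧
      (∀ C : Circuit (Ground a b), (∀ g ∈ C.gates, g.IsMono) → C.size < 2 ^ l →
        Ev (wordSet (sparseCode S)) (fun Z => ind (C.eval (chi Z) = true)) ≤
          3 * N'.E (fun U => ind (C.eval (chi U) = true)) + (1 / 2 : ℝ) ^ (2 * l)) ∧
      N'.iter g (fun U => ind (∃ s, wordSet (sparseCode S) s ⊆ U)) ≤ (1 / 2 : ℝ) ^ (2 * l) := by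
  obtain ⟨y, hy⟩ : ∃ y, y = Nat.log 2 l := ⟨_, rfl⟩
  obtain ⟨lam, hlam⟩ : ∃ lam, lam = 2 * y + 25 := ⟨_, rfl⟩
  have hlaml : lam ≤ l := by rw [hlam, hy]; exact lam_le hl
  have hlam1 : 1 ≤ lam := by omega
  have hl1 : 1 ≤ l := by omega
  have hly : l < 2 ^ (y + 1) := by rw [hy]; exact Nat.lt_pow_succ_log_self (by norm_num) l
  rw [← hy, ← hlam]
  set L := 14 * (lam * l) with hL
  have hll : 1 ≤ lam * l := Nat.one_le_iff_ne_zero.2 (by positivity)
  have hL1 : L + 1 ≤ 15 * (lam * l) := by omega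
  set q := 256 * lam ^ 2 * (L + 1) * g with hqdef
  have hq0 : 0 < q := by positivity
  have hq3840 : q ≤ 3840 * (lam ^ 3 * l) * g := by
    calc q ≤ 256 * lam ^ 2 * (15 * (lam * l)) * g :=
          Nat.mul_le_mul_right _ (Nat.mul_le_mul_left _ hL1)
      _ = 3840 * (lam ^ 3 * l) * g := by ring
  -- the number of bits
  obtain ⟨b, hb1, hb2⟩ : ∃ b, q ≤ 2 ^ (2 * b) ∧ 2 ^ (2 * b) ≤ 4 * q := by
    have hex : ∃ b, q ≤ 2 ^ (2 * b) := ⟨q, (Nat.lt_two_pow_self).le.trans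
      (Nat.pow_le_pow_right (by norm_num) (by omega))⟩
    refine ⟨Nat.find hex, Nat.find_spec hex, ?_⟩
    by_cases h0 : Nat.find hex = 0
    · rw [h0]
      simp only [mul_zero, pow_zero]
      omega
    · have := Nat.find_min hex (m := Nat.find hex - 1) (by omega)
      push Not at this
      have h1 : 2 * Nat.find hex = 2 * (Nat.find hex - 1) + 2 := by omega
      rw [h1, pow_add]
      omega
  have hb2' : 2 ^ (2 * b) ≤ 15360 * (lam ^ 3 * l) * g := by
    calc 2 ^ (2 * b) ≤ 4 * q := hb2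
      _ ≤ 4 * (3840 * (lam ^ 3 * l) * g) := Nat.mul_le_mul_left _ hq3840
      _ = 15360 * (lam ^ 3 * l) * g := by ring
  have hl2 : l ^ 2 * g ≤ (2 ^ (y + 1)) ^ 3 := by
    calc l ^ 2 * g ≤ l ^ 2 * l := Nat.mul_le_mul_left _ hgl
      _ = l ^ 3 := by ring
      _ ≤ _ := Nat.pow_le_pow_left hly.le 3
  have hbig : 1013761 * lam ^ 5 * (l ^ 2 * g) < 2 ^ (2 * lam) := by
    rw [hlam]
    exact lt_of_le_of_lt (Nat.mul_le_mul_left _ hl2) pow_big3
  have hblam : b ≤ lam := by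
    by_contra hlt
    push Not at hlt
    have h1 : 2 ^ (2 * lam) ≤ 2 ^ (2 * b) := Nat.pow_le_pow_right (by norm_num) (by omega)
    have h2 : 15360 * (lam ^ 3 * l) * g ≤ 1013761 * lam ^ 5 * (l ^ 2 * g) := by
      have h3 : lam ^ 3 * l ≤ lam ^ 5 * l ^ 2 :=
        Nat.mul_le_mul (Nat.pow_le_pow_right hlam1 (by norm_num))
          (by rw [sq]; exact Nat.le_mul_of_pos_left _ (by omega))
      calc 15360 * (lam ^ 3 * l) * g ≤ 1013761 * (lam ^ 5 * l ^ 2) * g :=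
            Nat.mul_le_mul_right _ (Nat.mul_le_mul (by norm_num) h3)
        _ = 1013761 * lam ^ 5 * (l ^ 2 * g) := by ring
    omega
  obtain ⟨k, hk⟩ : ∃ k, k = 2 * lam := ⟨_, rfl⟩
  obtain ⟨m, hm⟩ : ∃ m, m = 64 * (lam * b * l) := ⟨_, rfl⟩
  obtain ⟨a, ha⟩ : ∃ a, a = m + 2 * l := ⟨_, rfl⟩
  have hb0 : 1 ≤ b := by
    by_contra h0
    have : b = 0 := by omega
    rw [this] at hb1
    simp only [mul_zero, pow_zero] at hb1
    have : 256 * 1 * 1 * 1 ≤ 256 * lam ^ 2 * (L + 1) * g :=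
      Nat.mul_le_mul (Nat.mul_le_mul (Nat.mul_le_mul_left _ (Nat.one_le_pow _ _ hlam1))
        (by omega)) hg1
    omega
  have hlamlle : l ≤ lam ^ 2 * l := Nat.le_mul_of_pos_left _ (by positivity)
  have hbl : lam * b * l ≤ lam ^ 2 * l := by
    apply Nat.mul_le_mul_right
    rw [sq]
    exact Nat.mul_le_mul_left _ hblam
  have ha66 : a ≤ 66 * (lam ^ 2 * l) := by omega
  have haX : a * 2 ^ (2 * b) ≤ 1013760 * lam ^ 5 * l ^ 2 * g := by
    calc a * 2 ^ (2 * b) ≤ (66 * (lam ^ 2 * l)) * (15360 * (lam ^ 3 * l) * g) :=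
          Nat.mul_le_mul ha66 hb2'
      _ = 1013760 * lam ^ 5 * l ^ 2 * g := by ring
  have hXcard : Fintype.card (Ground a b) + 1 ≤ 2 ^ (2 * lam) := by
    have h1 : Fintype.card (Ground a b) = a * 2 ^ (2 * b) := by
      simp [Ground, Sym, ZMod.card]
    rw [h1]
    have h2 : 1013760 * lam ^ 5 * l ^ 2 * g + 1 ≤ 1013761 * lam ^ 5 * (l ^ 2 * g) := by
      have h3 : 1 ≤ lam ^ 5 * l ^ 2 * g := Nat.one_le_iff_ne_zero.2 (by positivity)
      have h4 : 1013760 * lam ^ 5 * l ^ 2 * g = 1013760 * (lam ^ 5 * l ^ 2 * g) := by ring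
      have h5 : 1013761 * lam ^ 5 * (l ^ 2 * g) = 1013761 * (lam ^ 5 * l ^ 2 * g) := by ring
      omega
    omega
  have hm0 : 0 < m := by
    rw [hm]
    have : 0 < lam * b * l := Nat.mul_pos (Nat.mul_pos hlam1 hb0) hl1
    omega
  have ha0 : 1 ≤ a := by omega
  -- the code
  obtain ⟨S, hS⟩ := exists_sparse (R := Row a b) (k := k) (m := m) (2 * (2 * l) * (2 * b)) hm0
    (by
      have h0 : Fintype.card (Row a b) = a * (2 * b) := by
        simp [Row]
      rw [h0, hk]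
      have h1 : 8 * b ≤ 4 * 2 ^ (2 * b) := by
        have : 2 * b < 2 ^ (2 * b) := Nat.lt_two_pow_self
        omega
      have h2 : 4 * (a * (2 * b)) ≤ 4 * (a * 2 ^ (2 * b)) := by
        calc 4 * (a * (2 * b)) = a * (8 * b) := by ring
          _ ≤ a * (4 * 2 ^ (2 * b)) := Nat.mul_le_mul_left _ h1
          _ = 4 * (a * 2 ^ (2 * b)) := by ring
      have h3 : a * (8 * b) ≤ 1013761 * lam ^ 5 * (l ^ 2 * g) := by
        -- a direct bound
        calc a * (8 * b) ≤ (66 * (lam ^ 2 * l)) * (8 * lam) :=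
              Nat.mul_le_mul ha66 (Nat.mul_le_mul_left _ hblam)
          _ = 528 * (lam ^ 3 * l) * 1 := by ring
          _ ≤ 1013761 * (lam ^ 5 * l ^ 2) * g := by
              apply Nat.mul_le_mul _ hg1
              apply Nat.mul_le_mul (by norm_num)
              exact Nat.mul_le_mul (Nat.pow_le_pow_right hlam1 (by norm_num))
                (by rw [sq]; exact Nat.le_mul_of_pos_left _ (by omega))
          _ = 1013761 * lam ^ 5 * (l ^ 2 * g) := by ring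
      have h4 : 4 * (a * (2 * b)) = a * (8 * b) := by ring
      omega)
    (by
      rw [hm, hk]
      apply le_of_eq
      ring)
  have hspread := spread_code (sparseCode S) (sparseCode_indep S hS)
  -- noise
  set D := 2 * ((L + 1) * lam) * g with hD
  have hD0 : 0 < D := by positivity
  have h4l : 2 * (2 * l) < 2 ^ lam := by
    have h1 : 2 ^ (y + 3) ≤ 2 ^ lam := Nat.pow_le_pow_right (by norm_num) (by omega)
    have h2 : 2 ^ (y + 3) = 4 * 2 ^ (y + 1) := by rw [show y + 3 = (y + 1) + 2 by ring, pow_add]; ring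
    omega
  have hcov := covers_enNoise (X := Ground a b) hD0 (J := lam) (c := 2 * (2 * l)) hlam1 h4l
  have hκ : (0 : ℝ) ≤ (1 / 2 : ℝ) ^ (2 * b) := pow_nonneg (by norm_num) _
  have hBκ : 32 * (lam : ℝ) * D * (1 / 2 : ℝ) ^ (2 * b) ≤ 1 / 4 := by
    have h1 : ((q : ℕ) : ℝ) ≤ ((2 ^ (2 * b) : ℕ) : ℝ) := by exact_mod_cast hb1
    have h2 : (1 / 2 : ℝ) ^ (2 * b) * ((2 ^ (2 * b) : ℕ) : ℝ) = 1 := by
      push_cast
      rw [← mul_pow]; norm_num
    have h3 : 32 * (lam : ℝ) * D = ((q : ℕ) : ℝ) / 4 := by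
      rw [hD, hqdef]
      push_cast
      ring
    rw [h3]
    calc ((q : ℕ) : ℝ) / 4 * (1 / 2 : ℝ) ^ (2 * b)
        ≤ ((2 ^ (2 * b) : ℕ) : ℝ) / 4 * (1 / 2 : ℝ) ^ (2 * b) := by
          apply mul_le_mul_of_nonneg_right _ hκ
          linarith
      _ = 1 / 4 := by linear_combination (1 / 4) * h2
  have hB1 : 1 ≤ 32 * (lam : ℝ) * D := by
    have h1 : (1 : ℝ) ≤ lam := by exact_mod_cast hlam1
    have h2 : (1 : ℝ) ≤ D := by exact_mod_cast hD0
    nlinarith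
  set N := enNoise (X := Ground a b) hD0 lam with hN
  refine ⟨a, b, k, m, S, powOp N (L + 1), ha0, by omega, haX, ha66, hblam, hk, hb2', ?_, ?_⟩
  · intro C hC hCs
    have herr := err_small (X := Ground a b) (s := C.size) hlam1 hl1 hCs hXcard
    have hdom := Pool.Agent.T9h34.G.domination (N := N) (L := L) (e := 2 * l) (by omega) (by omega)
      hB1 hcov (wordSet (sparseCode S)) hκ hspread hBκ C hC
    unfold Pool.Agent.T9h34.G.err at herr
    change _ ≤ 3 * N.iter (L + 1) (fun U => ind (C.eval (chi U) = true)) + _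
    linarith
  · rw [powOp_iter]
    refine (few_enNoise hD0 lam (g * (L + 1)) (wordSet (sparseCode S))
      (card_wordSet (sparseCode S))).trans ?_
    rw [Fintype.card_fun, ZMod.card, Fintype.card_fin]
    have h1 : ((g * (L + 1) * lam : ℕ) : ℝ) / (D : ℝ) ≤ 1 / 2 := by
      rw [div_le_iff₀ (by exact_mod_cast hD0), hD]
      push_cast
      linarith
    calc (((2 ^ m : ℕ) : ℝ)) * (((g * (L + 1) * lam : ℕ) : ℝ) / (D : ℝ)) ^ a
        ≤ ((2 ^ m : ℕ) : ℝ) * (1 / 2) ^ a := by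
          apply mul_le_mul_of_nonneg_left _ (by positivity)
          exact pow_le_pow_left₀ (by positivity) h1 a
      _ = (1 / 2 : ℝ) ^ (2 * l) := by
          rw [ha, pow_add]
          push_cast
          rw [← mul_assoc, ← mul_pow]
          norm_num

end Pool.Agent.T9h34.S
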