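import Pool.Agent.T9h34.S.Block

set_option autoImplicit false

/-!
# A grid of blocks

`p` copies of the left halves and `p` copies of the right halves of the symbols give `p * p` blocks.
A clique contains the vertices of one block and spells a codeword.
-/

namespace Pool.Agent.T9h34.S

open Finset Pool.Agent.T9h34

variable {a b k m u p : ℕ}

/-- Vertices of the grid. -/
abbrev GVtx (a b k u p : ℕ) : Type :=
  ((Fin a × Bool) × (Fin p × (Fin b → ZMod 2))) ⊕
    (((Fin a × Bool × Fin b × Fin k) × (ZMod 2 × ZMod 2)) ⊕ Fin u)

/-- The variables of all blocks. -/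
abbrev GGround (a b p : ℕ) : Type := (Fin p × Fin p) × Ground a b

/-- The group of a vertex. -/
def ggrp : GVtx a b k u p → Grp a b k u
  | .inl q => .inl q.1
  | .inr (.inl q) => .inr (.inl q.1)
  | .inr (.inr i) => .inr (.inr i)

/-- The side of a vertex (if it has one). -/
def side (σ0 : Fin p) : GVtx a b k u p → Fin p
  | .inl q => q.2.1
  | .inr _ => σ0

/-- First labels. -/
def glab0 : GVtx a b k u p → (Fin b → ZMod 2)
  | .inl q => q.2.2
  | .inr _ => 0

/-- Partial sums of check vertices. -/
def glab1 : GVtx a b k u p → ZMod 2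
  | .inl _ => 0
  | .inr (.inl q) => q.2.1
  | .inr (.inr _) => 0

/-- Message bits of check vertices. -/
def glab2 : GVtx a b k u p → ZMod 2
  | .inl _ => 0
  | .inr (.inl q) => q.2.2
  | .inr (.inr _) => 0

variable (S : G.Row a b → Fin k → Fin m)

/-- The vertex that a message and two sides select in a group. -/
def gvert (s : Fin m → ZMod 2) (σ : Bool → Fin p) : Grp a b k u → GVtx a b k u p
  | .inl q => .inl (q, (σ q.2, fun j => G.sparseCode S s q.1 (q.2, j)))
  | .inr (.inl q) => .inr (.inl (q, (G.psum S (q.1, (q.2.1, q.2.2.1)) (q.2.2.2 : ℕ) s,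
      s (S (q.1, (q.2.1, q.2.2.1)) q.2.2.2))))
  | .inr (.inr i) => .inr (.inr i)

theorem ggrp_gvert (s : Fin m → ZMod 2) (σ : Bool → Fin p) (g : Grp a b k u) :
    ggrp (gvert S s σ g) = g := by
  rcases g with g | g | g <;> rfl

/-- Two vertices of different groups that are selected together. -/
def GBase (x y : GVtx a b k u p) : Prop :=
  ggrp x ≠ ggrp y ∧ ∃ s σ, gvert S s σ (ggrp x) = x ∧ gvert S s σ (ggrp y) = y

theorem GBase.symm {x y : GVtx a b k u p} (h : GBase S x y) : GBase S y x :=
  ⟨fun e => h.1 e.symm, by obtain ⟨s, σ, h1, h2⟩ := h.2; exact ⟨s, σ, h2, h1⟩⟩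

/-- The block of two vertices, the first one in the half `h`. -/
def blk (h : Bool) (q q' : Fin p) : Fin p × Fin p := if h = true then (q', q) else (q, q')

/-- The status of a pair of vertices that can be selected together. -/
def glabel : GVtx a b k u p → GVtx a b k u p → GGround a b p ⊕ Bool
  | .inl ((i, h), (q, z)), .inl ((i', _), (q', z')) =>
      if i = i' then .inl (blk h q q', (i, comb h z z')) else .inr true
  | .inl _, .inr _ => .inr true
  | .inr _, _ => .inr true

theorem glabel_symm {x y : GVtx a b k u p} (h : ggrp x ≠ ggrp y) : glabel x y = glabel y x := by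
  rcases x with ⟨⟨i, hh⟩, ⟨q, z⟩⟩ | x
  · rcases y with ⟨⟨i', hh'⟩, ⟨q', z'⟩⟩ | y
    · simp only [glabel]
      by_cases hi : i = i'
      · subst hi
        rw [if_pos rfl, if_pos rfl]
        have hne : hh ≠ hh' := by
          intro e
          apply h
          simp [ggrp, e]
        rw [comb_symm hne]
        have : blk hh q q' = blk hh' q' q := by
          cases hh <;> cases hh' <;> simp_all [blk]
        rw [this]
      · rw [if_neg hi, if_neg (Ne.symm hi)]
    · rfl
  · rcases y with y | y <;> rfl

/-- The status of a pair of vertices. -/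
noncomputable def gedge (x y : GVtx a b k u p) : GGround a b p ⊕ Bool := by
  classical
  exact if GBase S x y then glabel x y else .inr false

theorem gedge_symm (x y : GVtx a b k u p) : gedge S x y = gedge S y x := by
  unfold gedge
  by_cases h : GBase S x y
  · rw [if_pos h, if_pos h.symm, glabel_symm h.1]
  · rw [if_neg h, if_neg (fun h' => h h'.symm)]

/-- The graph of an input set. -/
def ggraph (Z : Finset (GGround a b p)) : SimpleGraph (GVtx a b k u p) where
  Adj x y := Sum.elim (fun q => q ∈ Z) (fun c => c = true) (gedge S x y)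
  symm := ⟨by
    intro x y h
    rw [gedge_symm]
    exact h⟩
  loopless := ⟨by
    intro x h
    unfold gedge at h
    rw [if_neg (fun h' => h'.1 rfl)] at h
    exact absurd h (by simp)⟩

theorem ggraph_adj (Z : Finset (GGround a b p)) (x y : GVtx a b k u p) :
    (ggraph S Z).Adj x y ↔ Sum.elim (fun q => q ∈ Z) (fun c => c = true) (gedge S x y) := Iff.rfl

theorem gbase_of_adj {Z : Finset (GGround a b p)} {x y : GVtx a b k u p}
    (h : (ggraph S Z).Adj x y) : GBase S x y := by
  by_contra hb
  rw [ggraph_adj] at h
  unfold gedge at h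
  rw [if_neg hb] at h
  simp at h

theorem gclique_iff (hk : 0 < k) (ha : 0 < a) (Z : Finset (GGround a b p)) :
    (∃ T : Finset (GVtx a b k u p), (ggraph S Z).IsNClique (Fintype.card (Grp a b k u)) T)
      ↔ ∃ (e : Fin p × Fin p) (s : Fin m → ZMod 2), ∀ g ∈ wordSet (G.sparseCode S) s, (e, g) ∈ Z := by
  classical
  constructor
  · rintro ⟨T, hT⟩
    rw [SimpleGraph.isNClique_iff] at hT
    obtain ⟨hcl, hcard⟩ := hT
    have hinj : Set.InjOn ggrp (T : Set (GVtx a b k u p)) := by
      intro x hx y hy hxy
      by_contra hne
      exact (gbase_of_adj S (hcl hx hy hne)).1 hxy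
    have himg : T.image ggrp = univ := by
      rw [← Finset.card_eq_iff_eq_univ, Finset.card_image_of_injOn hinj, hcard]
    have hex : ∀ g : Grp a b k u, ∃ x ∈ T, ggrp x = g := by
      intro g
      have : g ∈ T.image ggrp := by rw [himg]; exact Finset.mem_univ g
      rw [Finset.mem_image] at this
      exact this
    choose x hxS hxg using hex
    have hadj : ∀ g g', g ≠ g' → (ggraph S Z).Adj (x g) (x g') := by
      intro g g' hne
      apply hcl (hxS g) (hxS g')
      intro h
      apply hne
      rw [← hxg g, ← hxg g', h]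
    have hcons : ∀ g g', g ≠ g' → ∃ s σ, gvert S s σ g = x g ∧ gvert S s σ g' = x g' := by
      intro g g' hne
      obtain ⟨s, σ, h1, h2⟩ := (gbase_of_adj S (hadj g g' hne)).2
      rw [hxg] at h1 h2
      exact ⟨s, σ, h1, h2⟩
    -- the sides
    set i0 : Fin a := ⟨0, ha⟩ with hi0
    obtain ⟨-, σ00, -, -⟩ := hcons (.inl (i0, false)) (.inl (i0, true)) (by simp)
    set σ0 : Fin p := σ00 false with hσ0
    set σ : Bool → Fin p := fun h => side σ0 (x (.inl (i0, h))) with hσ
    have hside : ∀ i h, side σ0 (x (.inl (i, h))) = σ h := by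
      intro i h
      by_cases hi : i = i0
      · rw [hi]
      · obtain ⟨s, σ', h1, h2⟩ := hcons (.inl (i, h)) (.inl (i0, h)) (by simpa using hi)
        rw [hσ]
        simp only
        rw [← h1, ← h2]
        rfl
    -- the message
    set t : Fin m → ZMod 2 := fun v =>
      if h : ∃ q : Fin a × Bool × Fin b × Fin k, S (q.1, (q.2.1, q.2.2.1)) q.2.2.2 = v then
        glab2 (x (.inr (.inl h.choose))) else 0 with ht
    have hA : ∀ i h j l, glab2 (x (.inr (.inl (i, h, j, l)))) = t (S (i, (h, j)) l) := by
      intro i h j l
      have hex : ∃ q : Fin a × Bool × Fin b × Fin k,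
          S (q.1, (q.2.1, q.2.2.1)) q.2.2.2 = S (i, (h, j)) l := ⟨(i, h, j, l), rfl⟩
      have ht' : t (S (i, (h, j)) l) = glab2 (x (.inr (.inl hex.choose))) := by
        rw [ht]
        simp only
        rw [dif_pos hex]
      rw [ht']
      have hch := hex.choose_spec
      generalize hex.choose = q at hch
      by_cases he : (i, h, j, l) = q
      · rw [he]
      · obtain ⟨s, σ', h1, h2⟩ := hcons (.inr (.inl (i, h, j, l))) (.inr (.inl q))
          (by intro e; apply he; simpa using e)
        rw [← h1, ← h2]
        change s (S (i, (h, j)) l) = s (S (q.1, (q.2.1, q.2.2.1)) q.2.2.2)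
        rw [hch]
    have hB : ∀ κ : ℕ, ∀ i h j, ∀ l : Fin k, (l : ℕ) = κ →
        glab1 (x (.inr (.inl (i, h, j, l)))) = G.psum S (i, (h, j)) κ t := by
      intro κ
      induction κ with
      | zero =>
        intro i h j l hl
        obtain ⟨s, σ', h1, _⟩ := hcons (.inr (.inl (i, h, j, l))) (.inl (i, h)) (by simp)
        rw [← h1, G.psum_zero]
        change G.psum S (i, (h, j)) (l : ℕ) s = _
        rw [hl, G.psum_zero]
      | succ κ ih =>
        intro i h j l hl
        have hkm : κ < k := by have := l.isLt; omega
        set l' : Fin k := ⟨κ, hkm⟩ with hl'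
        obtain ⟨s, σ', h1, h2⟩ := hcons (.inr (.inl (i, h, j, l'))) (.inr (.inl (i, h, j, l))) (by
          intro e
          simp only [Sum.inr.injEq, Sum.inl.injEq, Prod.mk.injEq, true_and] at e
          rw [← e] at hl
          simp [hl'] at hl)
        have h3 := ih i h j l' rfl
        have h4 := hA i h j l'
        rw [← h1] at h3 h4
        rw [← h2]
        change G.psum S (i, (h, j)) (l' : ℕ) s = _ at h3
        change s (S (i, (h, j)) l') = _ at h4
        change G.psum S (i, (h, j)) (l : ℕ) s = _
        have h5 : (l : ℕ) = (l' : ℕ) + 1 := hl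
        have h6 : κ + 1 = (l' : ℕ) + 1 := rfl
        rw [h5, h6, G.psum_succ, G.psum_succ, h4, h3]
    have hC : ∀ i h j, glab0 (x (.inl (i, h))) j = G.sparseCode S t i (h, j) := by
      intro i h j
      set l' : Fin k := ⟨k - 1, by omega⟩ with hl'
      obtain ⟨s, σ', h1, h2⟩ := hcons (.inl (i, h)) (.inr (.inl (i, h, j, l'))) (by simp)
      have h3 := hB (k - 1) i h j l' rfl
      have h4 := hA i h j l'
      rw [← h2] at h3 h4
      rw [← h1]
      change G.psum S (i, (h, j)) (l' : ℕ) s = _ at h3
      change s (S (i, (h, j)) l') = _ at h4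
      change G.sparseCode S s i (h, j) = _
      have h5 : k = (l' : ℕ) + 1 := by simp [hl']; omega
      have h6 : ∀ s : Fin m → ZMod 2, G.sparseCode S s i (h, j) =
          G.psum S (i, (h, j)) (l' : ℕ) s + s (S (i, (h, j)) l') := by
        intro s
        rw [← G.psum_succ, ← h5, G.psum_full]
      rw [h6 s, h6 t, h3, h4]
    refine ⟨(σ false, σ true), t, ?_⟩
    intro q hq
    have hq' := mem_wordSet.1 hq
    obtain ⟨i, y⟩ := q
    simp only at hq'
    subst hq'
    have h8 := hadj (.inl (i, false)) (.inl (i, true)) (by simp)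
    have h9 := gbase_of_adj S h8
    rw [ggraph_adj] at h8
    unfold gedge at h8
    rw [if_pos h9] at h8
    have hx1 : ∀ h, x (.inl (i, h)) =
        .inl ((i, h), (side σ0 (x (.inl (i, h))), glab0 (x (.inl (i, h))))) := by
      intro h
      have := hxg (.inl (i, h))
      revert this
      generalize x (.inl (i, h)) = w
      intro hw
      rcases w with ⟨q, z⟩ | w | w
      · simp only [ggrp, Sum.inl.injEq] at hw
        subst hw
        rfl
      · simp [ggrp] at hw
      · simp [ggrp] at hw
    rw [hx1 false, hx1 true] at h8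
    simp only [glabel, if_true, Sum.elim_inl] at h8
    have h10 : comb false (glab0 (x (.inl (i, false)))) (glab0 (x (.inl (i, true))))
        = G.sparseCode S t i := by
      funext q
      obtain ⟨p1, p2⟩ := q
      simp only [comb]
      cases p1
      · simp [hC]
      · simp [hC]
    rw [h10, hside, hside] at h8
    simpa [blk] using h8
  · rintro ⟨e, s, hs⟩
    set σ : Bool → Fin p := fun h => if h = true then e.2 else e.1 with hσ
    refine ⟨univ.image (gvert S s σ), ?_⟩
    rw [SimpleGraph.isNClique_iff]
    constructor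
    · intro x hx y hy hne
      rw [Finset.coe_image, Set.mem_image] at hx hy
      obtain ⟨g, _, rfl⟩ := hx
      obtain ⟨g', _, rfl⟩ := hy
      have hgg : g ≠ g' := fun e => hne (by rw [e])
      have hbase : GBase S (gvert S s σ g) (gvert S s σ g') := by
        refine ⟨by rw [ggrp_gvert, ggrp_gvert]; exact hgg, s, σ, ?_, ?_⟩
        · rw [ggrp_gvert]
        · rw [ggrp_gvert]
      rw [ggraph_adj]
      unfold gedge
      rw [if_pos hbase]
      rcases g with ⟨i, h⟩ | g
      · rcases g' with ⟨i', h'⟩ | g'
        · simp only [gvert, glabel]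
          by_cases hi : i = i'
          · subst hi
            rw [if_pos rfl, Sum.elim_inl]
            have hh : h ≠ h' := fun e => hgg (by rw [e])
            have he : blk h (σ h) (σ h') = e := by
              rw [hσ]
              cases h <;> cases h' <;> simp_all [blk]
            rw [he]
            apply hs
            rw [mem_wordSet]
            simp only
            funext q
            obtain ⟨p1, p2⟩ := q
            simp only [comb]
            cases p1 <;> cases h <;> cases h' <;> simp_all
          · rw [if_neg hi]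
            rfl
        · rcases g' with g' | g' <;> rfl
      · rcases g with g | g <;> rfl
    · rw [Finset.card_image_of_injective, Finset.card_univ]
      intro g g' h
      rw [← ggrp_gvert S s σ g, ← ggrp_gvert S s σ g', h]

end Pool.Agent.T9h34.S
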