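import Pool.Agent.T9h34.S.BlockAvg
import Pool.Agent.T9h34.S.AltCore

set_option autoImplicit false

/-!
# Average-case lower bound with a grid of blocks
-/

namespace Pool.Agent.T9h34.S.Gr

open Finset Pool.Agent.T9h34 Pool.Agent.T9h34.S
open scoped Classical

section addOut

variable {ι : Type*}

/-- Add a further gate that reads the output. -/
def addOut (C : Circuit ι) : Circuit ι :=
  ⟨C.gates ++ [.other [C.out] (fun _ => false)], C.out⟩

theorem reads_addOut (C : Circuit ι) (x : ι → Bool) :
    (addOut C).reads x = C.reads x ++ [[C.eval x]] := by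
  unfold Circuit.reads addOut
  simp only [List.length_append, List.length_singleton, List.range_succ, List.map_append,
    List.map_singleton]
  congr 1
  · apply List.map_congr_left
    intro j hj
    rw [List.mem_range] at hj
    unfold Circuit.readsAt
    simp only
    rw [List.getElem?_append_left hj, List.take_append_of_le_length hj.le]
  · unfold Circuit.readsAt Circuit.eval
    simp [Gate.args]

theorem reads_addOut_eq {C : Circuit ι} {x y : ι → Bool}
    (h : (addOut C).reads x = (addOut C).reads y) : C.reads x = C.reads y ∧ C.eval x = C.eval y := by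
  rw [reads_addOut, reads_addOut] at h
  have h1 := List.append_inj h (by simp [Circuit.reads])
  refine ⟨h1.1, ?_⟩
  simpa using h1.2

theorem numOther_addOut (C : Circuit ι) : (addOut C).numOther = C.numOther + 1 := by
  unfold Circuit.numOther addOut
  simp [List.countP_append, Gate.isOther]

theorem fanIn_addOut {C : Circuit ι} {d : ℕ} (h : C.FanIn d) : (addOut C).FanIn (d + 1) := by
  intro args φ hg
  unfold addOut at hg
  simp only [List.mem_append, List.mem_singleton, Gate.other.injEq] at hg
  rcases hg with hg | ⟨rfl, _⟩
  · exact (h args φ hg).trans (Nat.le_succ d)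
  · simp

/-- If the values read are the same then the output is monotone. -/
theorem eval_of_reads_eq (C : Circuit ι) {x y : ι → Bool} (hxy : ∀ i, y i = true → x i = true)
    (hr : C.reads x = C.reads y) (hy : C.eval y = true) : C.eval x = true := by
  obtain ⟨E, hE1, -, hE3, hE4⟩ := exists_detector C y
  apply hE4 x hr
  apply Circuit.eval_mono hxy E hE1
  by_contra hcon
  have := (hE3 y (fun _ h => h) (by simpa using hcon)).2
  rw [hy] at this
  exact absurd this (by simp)

end addOut

variable {a b k m u d p : ℕ}

/-- Inputs of the block `e` over the set `U`. -/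
noncomputable def ovr (U : Finset (GGround a b p)) (e : Fin p × Fin p) :
    GGround a b p → Ground a b ⊕ Bool := fun q =>
  if q ∈ U then .inr true else if q.1 = e then .inl q.2 else .inr false

theorem pull_ovr (U : Finset (GGround a b p)) (e : Fin p × Fin p) (V : Finset (Ground a b)) :
    pull (ovr U e) (chi V) = chi (put U e V) := by
  funext q
  unfold pull ovr chi
  by_cases hU : q ∈ U
  · rw [if_pos hU, Sum.elim_inr, id, Bool.eq_iff_iff, decide_eq_true_eq, mem_put]
    exact ⟨fun _ => Or.inl hU, fun _ => rfl⟩
  · rw [if_neg hU]
    by_cases h : q.1 = e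
    · rw [if_pos h, Sum.elim_inl, Bool.eq_iff_iff, decide_eq_true_eq, decide_eq_true_eq, mem_put]
      constructor
      · exact fun h' => Or.inr ⟨h, h'⟩
      · rintro (h' | h')
        · exact (hU h').elim
        · exact h'.2
    · rw [if_neg h, Sum.elim_inr, id, Bool.eq_iff_iff, decide_eq_true_eq, mem_put]
      constructor
      · exact fun h' => absurd h' (by simp)
      · rintro (h' | h')
        · exact (hU h').elim
        · exact (h h'.1).elim

theorem chi_le {Y : Type*} [DecidableEq Y] {U V : Finset Y} (h : U ⊆ V) :
    ∀ i, chi U i = true → chi V i = true := by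
  intro i hi
  unfold chi at hi ⊢
  rw [decide_eq_true_eq] at hi ⊢
  exact h hi

variable (S : G.Row a b → Fin k → Fin m) (N' : G.NoiseOp (Ground a b))

/-- The domination property of a block. -/
def Dom (l : ℕ) : Prop := ∀ C : Circuit (Ground a b), (∀ g ∈ C.gates, g.IsMono) → C.size < 2 ^ l →
  Ev (wordSet (G.sparseCode S)) (fun Z => ind (C.eval (chi Z) = true)) ≤
    3 * N'.E (fun U => ind (C.eval (chi U) = true)) + (1 / 2 : ℝ) ^ (2 * l)

variable {S N'}

/-- The domination property for circuits on all blocks. -/
theorem dom_over {l : ℕ} (hdom : Dom S N' l) (E : Circuit (GGround a b p))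
    (hE : ∀ g ∈ E.gates, g.IsMono) (hs : E.size < 2 ^ l) (U : Finset (GGround a b p))
    (e : Fin p × Fin p) :
    Ev (wordSet (G.sparseCode S)) (fun V => ind (E.eval (chi (put U e V)) = true)) ≤
      3 * N'.E (fun W => ind (E.eval (chi (put U e W)) = true)) + (1 / 2 : ℝ) ^ (2 * l) := by
  have hev : ∀ V : Finset (Ground a b), (E.subst (ovr U e)).eval (chi V) =
      E.eval (chi (put U e V)) := by
    intro V
    rw [Circuit.eval_subst, pull_ovr]
  have hm' : ∀ g ∈ (E.subst (ovr U e)).gates, g.IsMono := by
    intro g hg
    simp only [Circuit.subst, List.mem_map] at hg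
    obtain ⟨g', hg', rfl⟩ := hg
    unfold Gate.IsMono
    rw [Gate.isOther_subst]
    exact hE g' hg'
  have h := hdom (E.subst (ovr U e)) hm' (by rw [Circuit.size_subst]; exact hs)
  simp only [hev] at h
  exact h

/-- If a word changes the output then noise changes the values read or the output. -/
theorem detect_change {l : ℕ} (hdom : Dom S N' l) (C : Circuit (GGround a b p))
    (hs : C.size + C.numReads + 1 < 2 ^ l) (U : Finset (GGround a b p)) (e : Fin p × Fin p) :
    Ev (wordSet (G.sparseCode S))
        (fun V => ind (C.eval (chi U) ≠ C.eval (chi (put U e V)))) ≤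
      3 * N'.E (fun W => ind ((addOut C).reads (chi U) ≠ (addOut C).reads (chi (put U e W)))) +
        (1 / 2 : ℝ) ^ (2 * l) := by
  have hsub : ∀ V : Finset (Ground a b), ∀ i, chi U i = true → chi (put U e V) i = true :=
    fun V => chi_le subset_union_left
  by_cases hU : C.eval (chi U) = true
  · obtain ⟨E, hE1, hE2, hE3, hE4⟩ := exists_detector (⟨C.gates, .const false⟩ : Circuit _) (chi U)
    have h1 := dom_over hdom E hE1 (lt_of_le_of_lt hE2 hs) U e
    refine (Ev_mono' (wordSet (G.sparseCode S)) (fun ω => ?_)).trans (h1.trans ?_)
    · apply ind_mono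
      intro hne
      by_contra hcon
      have h2 := (hE3 _ (hsub (wordSet (G.sparseCode S) ω)) (by simpa using hcon)).1
      have h3 := eval_of_reads_eq C (hsub _) h2 hU
      rw [hU, h3] at hne
      exact hne rfl
    · have h2 : N'.E (fun W => ind (E.eval (chi (put U e W)) = true)) ≤
          N'.E (fun W => ind ((addOut C).reads (chi U) ≠ (addOut C).reads (chi (put U e W)))) := by
        apply N'.mono
        intro W
        apply ind_mono
        intro h3 h4
        have h5 := hE4 (chi (put U e W)) (reads_addOut_eq h4).1.symm h3
        exact absurd h5 (by simp [Circuit.eval, Src.eval])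
      linarith
  · have hU' : C.eval (chi U) = false := by simpa using hU
    obtain ⟨E, hE1, hE2, hE3, hE4⟩ := exists_detector C (chi U)
    have h1 := dom_over hdom E hE1 (lt_of_le_of_lt hE2 hs) U e
    refine (Ev_mono' (wordSet (G.sparseCode S)) (fun ω => ?_)).trans (h1.trans ?_)
    · apply ind_mono
      intro hne
      by_contra hcon
      have h2 := (hE3 _ (hsub (wordSet (G.sparseCode S) ω)) (by simpa using hcon)).2
      rw [hU', h2] at hne
      exact hne rfl
    · have h2 : N'.E (fun W => ind (E.eval (chi (put U e W)) = true)) ≤
          N'.E (fun W => ind ((addOut C).reads (chi U) ≠ (addOut C).reads (chi (put U e W)))) := by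
        apply N'.mono
        intro W
        apply ind_mono
        intro h3 h4
        have h5 := hE4 (chi (put U e W)) (reads_addOut_eq h4).1.symm h3
        rw [← (reads_addOut_eq h4).2, hU'] at h5
        exact absurd h5 (by simp)
      linarith

end Pool.Agent.T9h34.S.Gr
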