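import Pool.Agent.T9h34.S.GridAvg

set_option autoImplicit false

/-!
# Average-case lower bound with a grid of blocks: the score
-/

namespace Pool.Agent.T9h34.S.Gr

open Finset Pool.Agent.T9h34 Pool.Agent.T9h34.S
open scoped Classical

variable {a b k m u d p : ℕ}

/-- Expectation after `j` blocks have been filled with noise. -/
noncomputable def stage (N' : G.NoiseOp (Ground a b)) (e : ℕ → Fin p × Fin p) :
    ℕ → (Finset (GGround a b p) → ℝ) → ℝ
  | 0, F => F ∅
  | j + 1, F => stage N' e j (fun U => N'.E (fun W => F (put U (e j) W)))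

variable {N' : G.NoiseOp (Ground a b)} {e : ℕ → Fin p × Fin p}

/-- Only the first `j` blocks are used. -/
def Supp (e : ℕ → Fin p × Fin p) (j : ℕ) (U : Finset (GGround a b p)) : Prop :=
  ∀ q ∈ U, ∃ i < j, q.1 = e i

theorem supp_put {j : ℕ} {U : Finset (GGround a b p)} (h : Supp e j U) (W : Finset (Ground a b)) :
    Supp e (j + 1) (put U (e j) W) := by
  intro q hq
  rcases mem_put.1 hq with h' | h'
  · obtain ⟨i, hi, h1⟩ := h q h'
    exact ⟨i, by omega, h1⟩
  · exact ⟨j, by omega, h'.1⟩

theorem stage_mono_on (j : ℕ) {F F' : Finset (GGround a b p) → ℝ}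
    (h : ∀ U, Supp e j U → F U ≤ F' U) : stage N' e j F ≤ stage N' e j F' := by
  induction j generalizing F F' with
  | zero => exact h _ (by intro q hq; simp at hq)
  | succ j ih =>
    apply ih
    intro U hU
    apply N'.mono
    intro W
    exact h _ (supp_put hU W)

theorem stage_mono (j : ℕ) {F F' : Finset (GGround a b p) → ℝ}
    (h : ∀ U, F U ≤ F' U) : stage N' e j F ≤ stage N' e j F' :=
  stage_mono_on j (fun U _ => h U)

theorem stage_add (j : ℕ) (F F' : Finset (GGround a b p) → ℝ) :
    stage N' e j (fun U => F U + F' U) = stage N' e j F + stage N' e j F' := by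
  induction j generalizing F F' with
  | zero => rfl
  | succ j ih =>
    simp only [stage]
    rw [← ih]
    congr 1
    funext U
    exact N'.add' _ _

theorem stage_const_mul (j : ℕ) (c : ℝ) (F : Finset (GGround a b p) → ℝ) :
    stage N' e j (fun U => c * F U) = c * stage N' e j F := by
  induction j generalizing F with
  | zero => rfl
  | succ j ih =>
    simp only [stage]
    rw [← ih]
    congr 1
    funext U
    exact N'.const_mul' _ _

theorem stage_const (j : ℕ) (c : ℝ) :
    stage N' e j (fun _ : Finset (GGround a b p) => c) = c := by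
  induction j with
  | zero => rfl
  | succ j ih =>
    simp only [stage]
    rw [show (fun _ : Finset (GGround a b p) => N'.E fun _ => c) = fun _ => c by
      funext U; exact N'.const' c]
    exact ih

theorem stage_nonneg (j : ℕ) {F : Finset (GGround a b p) → ℝ} (h : ∀ U, 0 ≤ F U) :
    0 ≤ stage N' e j F := by
  have := stage_mono (N' := N') (e := e) j (F := fun _ => (0 : ℝ)) (F' := F) h
  rwa [stage_const] at this

variable (S : G.Row a b → Fin k → Fin m)

/-- The first `j` noisy blocks contain a word with small probability. -/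
theorem stage_word {M : ℕ} (ha : 0 < a) (he : ∀ i < M, ∀ j < M, e i = e j → i = j) {η : ℝ}
    (hη : N'.E (fun U => ind (∃ s, wordSet (G.sparseCode S) s ⊆ U)) ≤ η) (j : ℕ) (hj : j ≤ M) :
    stage N' e j (fun U => ind (HasWord S U)) ≤ j * η := by
  induction j with
  | zero =>
    simp only [stage, Nat.cast_zero, zero_mul]
    rw [ind_not]
    rintro ⟨e', s, h⟩
    have h5 : (wordSet (G.sparseCode S) s).card = a := card_wordSet _ s
    obtain ⟨g, hg⟩ := Finset.card_pos.1 (by rw [h5]; exact ha)
    exact absurd (h g hg) (by simp)
  | succ j ih =>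
    simp only [stage]
    have h1 : stage N' e j (fun U => N'.E (fun W => ind (HasWord S (put U (e j) W)))) ≤
        stage N' e j (fun U => ind (HasWord S U) + η) := by
      apply stage_mono_on
      intro U hU
      have hU' : ∀ q ∈ U, q.1 ≠ e j := by
        intro q hq h2
        obtain ⟨i, hi, h3⟩ := hU q hq
        have := he i (by omega) j (by omega) (h3.symm.trans h2)
        omega
      have h2 : N'.E (fun W => ind (HasWord S (put U (e j) W))) ≤
          N'.E (fun W => ind (HasWord S U) + ind (∃ s, wordSet (G.sparseCode S) s ⊆ W)) := by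
        apply N'.mono
        intro W
        refine le_trans (ind_mono ?_) (ind_or_le _ _)
        intro h
        by_contra hcon
        push Not at hcon
        exact hasWord_put S hU' ha hcon.1 (by
          rintro ⟨s, hs⟩
          exact hcon.2 s hs) h
      rw [N'.add', N'.const'] at h2
      linarith
    rw [stage_add, stage_const] at h1
    have := ih (by omega)
    push_cast
    linarith

/-- The expected number of correct answers. -/
noncomputable def gscore (N' : G.NoiseOp (Ground a b)) (e : ℕ → Fin p × Fin p) (M : ℕ)
    (g : Finset (GGround a b p) → ℝ) : ℝ :=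
  ∑ j ∈ Finset.range M, stage N' e j
    (fun U => g U + Ev (wordSet (G.sparseCode S)) (fun V => g (put U (e j) V)))

theorem gscore_le {M l dd : ℕ} (ha : 0 < a) (hdom : Dom S N' l)
    (he : ∀ i < M, ∀ j < M, e i = e j → i = j) {η : ℝ} (hη0 : 0 ≤ η)
    (hη : N'.E (fun U => ind (∃ s, wordSet (G.sparseCode S) s ⊆ U)) ≤ η)
    (C : Circuit (GGround a b p)) (hs : C.size + C.numReads + 1 < 2 ^ l) (hd : C.FanIn dd) :
    gscore S N' e M (fun Z => ind (C.eval (chi Z) = true ↔ HasWord S Z)) ≤
      M + (M * (M * η) + (3 * ((dd + 1) * 2 ^ (C.numOther + 1)) + M * (1 / 2 : ℝ) ^ (2 * l))) := by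
  set P : Finset (GGround a b p) → ℝ := fun U => ((addOut C).pot (chi U) : ℝ) with hP
  have hP0 : ∀ U, 0 ≤ P U := fun U => Nat.cast_nonneg _
  have hPb : ∀ U, P U ≤ (dd + 1) * 2 ^ (C.numOther + 1) := by
    intro U
    have h1 := (addOut C).pot_bound (fanIn_addOut hd) (chi U)
    rw [numOther_addOut] at h1
    have h2 : (addOut C).pot (chi U) ≤ (dd + 1) * 2 ^ (C.numOther + 1) := by omega
    have h3 : (((addOut C).pot (chi U) : ℕ) : ℝ) ≤ (((dd + 1) * 2 ^ (C.numOther + 1) : ℕ) : ℝ) := by
      exact_mod_cast h2
    rw [hP]
    push_cast at h3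
    exact h3
  have hPs : ∀ U V : Finset (GGround a b p), U ⊆ V →
      ind ((addOut C).reads (chi U) ≠ (addOut C).reads (chi V)) ≤ P V - P U := by
    intro U V hUV
    by_cases h : (addOut C).reads (chi U) ≠ (addOut C).reads (chi V)
    · have h1 := (addOut C).pot_lt (chi_le hUV) h
      rw [ind_of h, hP]
      have h2 : (((addOut C).pot (chi U) : ℕ) : ℝ) + 1 ≤ ((addOut C).pot (chi V) : ℕ) := by
        exact_mod_cast h1
      simp only
      linarith
    · have h1 := (addOut C).pot_mono (chi_le hUV)
      rw [ind_not h, hP]
      have h2 : (((addOut C).pot (chi U) : ℕ) : ℝ) ≤ ((addOut C).pot (chi V) : ℕ) := by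
        exact_mod_cast h1
      simp only
      linarith
  have hpt : ∀ (j : ℕ) (U : Finset (GGround a b p)),
      ind (C.eval (chi U) = true ↔ HasWord S U) +
        Ev (wordSet (G.sparseCode S)) (fun V => ind (C.eval (chi (put U (e j) V)) = true ↔
          HasWord S (put U (e j) V))) ≤
      1 + (ind (HasWord S U) + (3 * (N'.E (fun W => P (put U (e j) W)) - P U) +
        (1 / 2 : ℝ) ^ (2 * l))) := by
    intro j U
    have h1 := detect_change hdom C hs U (e j)
    have h2 : N'.E (fun W => ind ((addOut C).reads (chi U) ≠
        (addOut C).reads (chi (put U (e j) W)))) ≤ N'.E (fun W => P (put U (e j) W)) - P U := by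
      have h3 := N'.mono (F := fun W => ind ((addOut C).reads (chi U) ≠
        (addOut C).reads (chi (put U (e j) W)))) (G := fun W => P (put U (e j) W) - P U)
        (fun W => hPs U _ subset_union_left)
      rw [N'.sub, N'.const'] at h3
      exact h3
    have h4 : ind (C.eval (chi U) = true ↔ HasWord S U) +
        Ev (wordSet (G.sparseCode S)) (fun V => ind (C.eval (chi (put U (e j) V)) = true ↔
          HasWord S (put U (e j) V))) ≤ 1 + (Ev (wordSet (G.sparseCode S))
        (fun V => ind (C.eval (chi U) ≠ C.eval (chi (put U (e j) V)))) + ind (HasWord S U)) := by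
      by_cases hU : HasWord S U
      · rw [ind_of hU]
        have h5 := Ev_nonneg (wordSet (G.sparseCode S))
          (F := fun V => ind (C.eval (chi U) ≠ C.eval (chi (put U (e j) V))))
          (fun z => ind_nonneg _)
        have h6 := ind_le_one (C.eval (chi U) = true ↔ HasWord S U)
        have h7 := Ev_le_one (wordSet (G.sparseCode S))
          (F := fun V => ind (C.eval (chi (put U (e j) V)) = true ↔ HasWord S (put U (e j) V)))
          (fun z => ind_le_one _)
        linarith
      · have h5 : 0 ≤ ind (HasWord S U) := ind_nonneg _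
        have h6 : ind (C.eval (chi U) = true ↔ HasWord S U) +
            Ev (wordSet (G.sparseCode S)) (fun V => ind (C.eval (chi (put U (e j) V)) = true ↔
              HasWord S (put U (e j) V))) ≤ Ev (wordSet (G.sparseCode S))
            (fun V => 1 + ind (C.eval (chi U) ≠ C.eval (chi (put U (e j) V)))) := by
          rw [← Ev_const (wordSet (G.sparseCode S)) (ind (C.eval (chi U) = true ↔ HasWord S U)),
            ← Ev_add]
          apply Ev_mono'
          intro ω
          have hW : HasWord S (put U (e j) (wordSet (G.sparseCode S) ω)) :=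
            ⟨e j, ω, fun g hg => mem_put.2 (Or.inr ⟨rfl, hg⟩)⟩
          by_cases hne : C.eval (chi U) ≠ C.eval (chi (put U (e j) (wordSet (G.sparseCode S) ω)))
          · rw [ind_of hne]
            have h7 := ind_le_one (C.eval (chi U) = true ↔ HasWord S U)
            have h8 := ind_le_one (C.eval (chi (put U (e j) (wordSet (G.sparseCode S) ω))) = true ↔
              HasWord S (put U (e j) (wordSet (G.sparseCode S) ω)))
            linarith
          · rw [ind_not hne]
            push Not at hne
            by_cases hc : C.eval (chi U) = true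
            · rw [ind_not (p := C.eval (chi U) = true ↔ HasWord S U) (fun h => hU (h.1 hc))]
              have h8 := ind_le_one (C.eval (chi (put U (e j) (wordSet (G.sparseCode S) ω))) = true ↔
                HasWord S (put U (e j) (wordSet (G.sparseCode S) ω)))
              linarith
            · rw [ind_not (p := C.eval (chi (put U (e j) (wordSet (G.sparseCode S) ω))) = true ↔
                HasWord S (put U (e j) (wordSet (G.sparseCode S) ω)))
                (fun h => hc (by rw [hne]; exact h.2 hW))]
              have h7 := ind_le_one (C.eval (chi U) = true ↔ HasWord S U)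
              linarith
        rw [Ev_add, Ev_const] at h6
        linarith
    linarith
  have hstep : ∀ j ∈ Finset.range M, stage N' e j (fun U =>
      ind (C.eval (chi U) = true ↔ HasWord S U) +
        Ev (wordSet (G.sparseCode S)) (fun V => ind (C.eval (chi (put U (e j) V)) = true ↔
          HasWord S (put U (e j) V)))) ≤
      1 + (M * η + (3 * (stage N' e (j + 1) P - stage N' e j P) + (1 / 2 : ℝ) ^ (2 * l))) := by
    intro j hj
    rw [Finset.mem_range] at hj
    refine (stage_mono j (hpt j)).trans ?_
    rw [stage_add, stage_const, stage_add, stage_add, stage_const_mul, stage_const]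
    have h1 : stage N' e j (fun U => N'.E (fun W => P (put U (e j) W)) - P U) =
        stage N' e (j + 1) P - stage N' e j P := by
      have h2 : (fun U => N'.E (fun W => P (put U (e j) W)) - P U) =
          fun U => N'.E (fun W => P (put U (e j) W)) + (-1) * P U := by funext U; ring
      rw [h2, stage_add, stage_const_mul]
      simp only [stage]
      ring
    rw [h1]
    have h3 := stage_word S ha he hη j hj.le
    have h4 : (j : ℝ) * η ≤ M * η := by
      apply mul_le_mul_of_nonneg_right _ hη0
      exact_mod_cast hj.le
    linarith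
  unfold gscore
  refine (Finset.sum_le_sum hstep).trans ?_
  have h3 : ∑ j ∈ Finset.range M, 3 * (stage N' e (j + 1) P - stage N' e j P) =
      3 * (stage N' e M P - stage N' e 0 P) := by
    rw [← Finset.mul_sum, Finset.sum_range_sub (fun j => stage N' e j P)]
  rw [Finset.sum_add_distrib, Finset.sum_add_distrib, Finset.sum_add_distrib, h3,
    Finset.sum_const, Finset.sum_const, Finset.sum_const, Finset.card_range, nsmul_eq_mul,
    nsmul_eq_mul, nsmul_eq_mul, mul_one]
  have h1 : stage N' e M P ≤ (dd + 1) * 2 ^ (C.numOther + 1) := by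
    rw [← stage_const (N' := N') (e := e) M ((dd + 1 : ℝ) * 2 ^ (C.numOther + 1))]
    exact stage_mono M hPb
  have h2 : 0 ≤ stage N' e 0 P := stage_nonneg 0 hP0
  linarith

/-! ### The distribution -/

theorem gscore_mono {M : ℕ} {g h : Finset (GGround a b p) → ℝ} (H : ∀ Z, g Z ≤ h Z) :
    gscore S N' e M g ≤ gscore S N' e M h := by
  unfold gscore
  apply Finset.sum_le_sum
  intro j _
  apply stage_mono
  intro U
  exact add_le_add (H U) (Ev_mono _ (fun V => H _))

theorem gscore_add {M : ℕ} (g h : Finset (GGround a b p) → ℝ) :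
    gscore S N' e M (fun Z => g Z + h Z) = gscore S N' e M g + gscore S N' e M h := by
  unfold gscore
  rw [← Finset.sum_add_distrib]
  apply Finset.sum_congr rfl
  intro j _
  rw [← stage_add]
  congr 1
  funext U
  rw [Ev_add]
  ring

theorem gscore_const_mul {M : ℕ} (c : ℝ) (g : Finset (GGround a b p) → ℝ) :
    gscore S N' e M (fun Z => c * g Z) = c * gscore S N' e M g := by
  unfold gscore
  rw [Finset.mul_sum]
  apply Finset.sum_congr rfl
  intro j _
  rw [← stage_const_mul]
  congr 1
  funext U
  rw [Ev_const_mul]
  ring

theorem gscore_const {M : ℕ} (c : ℝ) :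
    gscore S N' e M (fun _ : Finset (GGround a b p) => c) = 2 * M * c := by
  unfold gscore
  have : ∀ j ∈ Finset.range M, stage N' e j (fun _ : Finset (GGround a b p) => c +
      Ev (wordSet (G.sparseCode S)) (fun _ => c)) = 2 * c := by
    intro j _
    rw [Ev_const, stage_const]
    ring
  rw [Finset.sum_congr rfl this, Finset.sum_const, Finset.card_range, nsmul_eq_mul]
  ring

/-- The tests as a noise operator. -/
noncomputable def testOp (N' : G.NoiseOp (Ground a b)) (e : ℕ → Fin p × Fin p) {M : ℕ} (hM : 0 < M) :
    G.NoiseOp (GGround a b p) where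
  E g := gscore S N' e M g / (2 * M)
  mono' _ _ h := div_le_div_of_nonneg_right (gscore_mono S h) (by positivity)
  add' F G := by rw [gscore_add, add_div]
  const_mul' c F := by rw [gscore_const_mul, mul_div_assoc]
  const' c := by
    rw [gscore_const]
    have : (M : ℝ) ≠ 0 := by exact_mod_cast hM.ne'
    field_simp

/-- The push-forward of a noise operator. -/
noncomputable def push {Y β : Type*} (T : G.NoiseOp Y) (Φ : Finset Y → β) (y : β) : ℝ :=
  T.E (fun Z => ind (Φ Z = y))

theorem push_nonneg {Y β : Type*} (T : G.NoiseOp Y) (Φ : Finset Y → β) (y : β) :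
    0 ≤ push T Φ y := T.nonneg (fun _ => ind_nonneg _)

theorem E_sum {Y α : Type*} (T : G.NoiseOp Y) (s : Finset α) (F : α → Finset Y → ℝ) :
    T.E (fun U => ∑ i ∈ s, F i U) = ∑ i ∈ s, T.E (F i) := by
  induction s using Finset.induction_on with
  | empty => simp [T.const']
  | insert i s hi ih =>
    simp only [Finset.sum_insert hi]
    rw [T.add', ih]

theorem sum_push_mul {Y β : Type*} [Fintype β] (T : G.NoiseOp Y) (Φ : Finset Y → β) (h : β → ℝ) :
    ∑ y, push T Φ y * h y = T.E (fun Z => h (Φ Z)) := by
  have h1 : (fun Z => h (Φ Z)) = fun Z => ∑ y, h y * ind (Φ Z = y) := by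
    funext Z
    rw [Finset.sum_eq_single (Φ Z)]
    · rw [ind_of rfl, mul_one]
    · intro y _ hy
      rw [ind_not (fun h => hy h.symm), mul_zero]
    · intro h
      exact absurd (Finset.mem_univ _) h
  rw [h1, E_sum]
  apply Finset.sum_congr rfl
  intro y _
  rw [T.const_mul', mul_comm]
  rfl

theorem sum_push {Y β : Type*} [Fintype β] (T : G.NoiseOp Y) (Φ : Finset Y → β) :
    ∑ y, push T Φ y = 1 := by
  have := sum_push_mul T Φ (fun _ => 1)
  simp only [mul_one] at this
  rw [this, T.const']

end Pool.Agent.T9h34.S.Gr
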