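import Pool.Agent.T9h34.S.Block
import Pool.Agent.T9h36.Pad

set_option autoImplicit false

/-!
# Padding the blocks to graphs with a prescribed number of edges
-/

namespace Pool.Agent.T9h34.S

open Finset Pool.Agent.T9h34 Pool.Agent.T9h34.G
open scoped Classical

variable {a b k m u d : ℕ}

/-- The vertices of the block, universal vertices, and `d` dummy vertices. -/
abbrev VV (a b k u d : ℕ) : Type := Vtx a b k u ⊕ Fin d

/-- Adjacency in the graph of all the optional edges: every optional edge contains a dummy vertex,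
and its ends have different colours modulo `c`. -/
def adjH (c : ℕ) : VV a b k u d → VV a b k u d → Prop
  | .inr j, .inr j' => (u + j) % c ≠ (u + j') % c
  | .inr j, .inl (.inr (.inr i)) => (u + j) % c ≠ (i : ℕ) % c
  | .inl (.inr (.inr i)), .inr j => (i : ℕ) % c ≠ (u + j) % c
  | .inl (.inl _), .inr _ => False
  | .inl (.inr (.inl _)), .inr _ => False
  | .inr _, .inl (.inl _) => False
  | .inr _, .inl (.inr (.inl _)) => False
  | .inl _, .inl _ => False

/-- The graph of the optional edges. -/
def Hg (a b k u d c : ℕ) : SimpleGraph (VV a b k u d) where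
  Adj := adjH c
  symm := ⟨by
    rintro ((x | x | x) | x) ((y | y | y) | y) h
    · exact h
    · exact h
    · exact h
    · exact h
    · exact h
    · exact h
    · exact h
    · exact h
    · exact h
    · exact h
    · exact h
    · exact Ne.symm h
    · exact h
    · exact h
    · exact Ne.symm h
    · exact Ne.symm h⟩
  loopless := ⟨by
    rintro ((x | x | x) | x) h
    · exact h
    · exact h
    · exact h
    · exact h rfl⟩

/-- The embedding of the structured vertices. -/
def inlE (a b k u d : ℕ) : Vtx a b k u ↪ VV a b k u d := ⟨Sum.inl, Sum.inl_injective⟩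

variable (S : Row a b → Fin k → Fin m)

/-- The graph with block variables `Z` and optional edges `D`. -/
def WW (Z : Finset (Ground a b)) (D : SimpleGraph (VV a b k u d)) :
    SimpleGraph (VV a b k u d) :=
  (G.graphOf (u := u) S Z).map (inlE a b k u d) ⊔ D

theorem gr_mono {Z Z' : Finset (Ground a b)} (hZ : Z ⊆ Z') :
    G.graphOf (u := u) S Z ≤ G.graphOf S Z' := by
  intro x y h
  rw [G.graphOf_adj] at h ⊢
  cases hE : G.edge S x y with
  | inl q => rw [hE] at h; exact hZ h
  | inr c => rw [hE] at h; exact h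

theorem WW_mono {Z Z' : Finset (Ground a b)} {D D' : SimpleGraph (VV a b k u d)}
    (hz : Z ⊆ Z') (hD : D ≤ D') : WW S Z D ≤ WW S Z' D' :=
  sup_le_sup (SimpleGraph.map_monotone _ (gr_mono S hz)) hD

theorem Hg_inl {c : ℕ} (x y : Vtx a b k u) :
    ¬ (Hg a b k u d c).Adj (Sum.inl x) (Sum.inl y) := by
  intro h
  change adjH c _ _ at h
  rcases x with x | x | x <;> rcases y with y | y | y <;> exact h

theorem WW_inl {c : ℕ} {Z : Finset (Ground a b)} {D : SimpleGraph (VV a b k u d)}
    (hD : D ≤ Hg a b k u d c) (x y : Vtx a b k u) :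
    (WW S Z D).Adj (Sum.inl x) (Sum.inl y) ↔ (G.graphOf (u := u) S Z).Adj x y := by
  constructor
  · rintro (h | h)
    · exact (SimpleGraph.map_adj_apply (f := inlE a b k u d) (a := x) (b := y)).1 h
    · exact (Hg_inl x y (hD h)).elim
  · intro h
    left
    exact (SimpleGraph.map_adj_apply (f := inlE a b k u d) (a := x) (b := y)).2 h

theorem WW_inr {Z : Finset (Ground a b)} {D : SimpleGraph (VV a b k u d)}
    (x : VV a b k u d) (j : Fin d) : (WW S Z D).Adj x (Sum.inr j) ↔ D.Adj x (Sum.inr j) := by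
  constructor
  · rintro (h | h)
    · rw [SimpleGraph.map_adj] at h
      obtain ⟨u', v', _, _, h⟩ := h
      exact (Sum.inl_ne_inr h).elim
    · exact h
  · exact fun h => Or.inr h

/-- The colour of a universal vertex or a dummy vertex. -/
def col : VV a b k u d → ℕ
  | .inr j => u + j
  | .inl (.inr (.inr i)) => i
  | .inl (.inl _) => 0
  | .inl (.inr (.inl _)) => 0

theorem clique_card_le {Z : Finset (Ground a b)} (T : Finset (Vtx a b k u))
    (hT : (G.graphOf (u := u) S Z).IsClique (T : Set (Vtx a b k u))) :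
    T.card ≤ Fintype.card (Grp a b k u) := by
  have hinj : Set.InjOn grp (T : Set (Vtx a b k u)) := by
    intro x hx y hy hxy
    by_contra hne
    exact (G.base_of_adj S (hT hx hy hne)).1 hxy
  rw [← Finset.card_image_of_injOn hinj]
  exact Finset.card_le_univ _

theorem WW_clique {c : ℕ} (hk : 0 < k) (ha : 0 < a)
    (hc : c + 1 = Fintype.card (Grp a b k u)) {Z : Finset (Ground a b)}
    {D : SimpleGraph (VV a b k u d)} (hD : D ≤ Hg a b k u d c) :
    (∃ Q : Finset (VV a b k u d), (WW S Z D).IsClique (Q : Set (VV a b k u d)) ∧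
      Fintype.card (Grp a b k u) ≤ Q.card) ↔ ∃ s, wordSet (sparseCode S) s ⊆ Z := by
  have hcardG : Fintype.card (Grp a b k u) = a * 2 + (a * (2 * (b * k)) + u) := by
    simp only [Grp, Fintype.card_sum, Fintype.card_prod, Fintype.card_fin, Fintype.card_bool]
  have huc : u < c := by omega
  constructor
  · rintro ⟨Q, hQ, hcard⟩
    by_cases hj : ∃ j, Sum.inr j ∈ Q
    · exfalso
      obtain ⟨j, hj⟩ := hj
      have hadj : ∀ x ∈ Q, ∀ y ∈ Q, x ≠ y → (WW S Z D).Adj x y := fun x hx y hy hxy => hQ hx hy hxy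
      have hcol : ∀ x ∈ Q, (∃ i, x = Sum.inr i) ∨ (∃ i, x = Sum.inl (Sum.inr (Sum.inr i))) := by
        intro x hx
        by_cases hxj : x = Sum.inr j
        · exact Or.inl ⟨j, hxj⟩
        have h1 := hD ((WW_inr S _ _).1 (hadj x hx _ hj hxj))
        change adjH c _ _ at h1
        rcases x with (x | x | x) | x
        · exact h1.elim
        · exact h1.elim
        · exact Or.inr ⟨x, rfl⟩
        · exact Or.inl ⟨x, rfl⟩
      have hinj : Set.InjOn (fun x : VV a b k u d => col x % c) Q := by
        intro x hx y hy hxy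
        by_contra hne
        have h1 := hadj x hx y hy hne
        rcases hcol x hx with ⟨i, rfl⟩ | ⟨i, rfl⟩ <;> rcases hcol y hy with ⟨i', rfl⟩ | ⟨i', rfl⟩
        · exact (hD ((WW_inr S _ _).1 h1) : adjH c _ _) hxy
        · exact (hD ((WW_inr S _ _).1 h1.symm) : adjH c _ _) hxy.symm
        · exact (hD ((WW_inr S _ _).1 h1) : adjH c _ _) hxy
        · apply hne
          have hxy' : (i : ℕ) % c = (i' : ℕ) % c := hxy
          have hi := i.2
          have hi' := i'.2
          rw [Nat.mod_eq_of_lt (by omega), Nat.mod_eq_of_lt (by omega)] at hxy'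
          rw [Fin.ext hxy']
      have := card_le_card_of_injOn (s := Q) (t := Finset.range c)
        (fun x : VV a b k u d => col x % c)
        (fun x _ => by
          rw [coe_range, Set.mem_Iio]
          exact Nat.mod_lt _ (by omega)) hinj
      rw [card_range] at this
      omega
    · push Not at hj
      have hQl : (G.graphOf (u := u) S Z).IsClique (Q.toLeft : Set (Vtx a b k u)) := by
        intro x hx y hy hxy
        rw [mem_coe, mem_toLeft] at hx hy
        exact (WW_inl S hD x y).1 (hQ hx hy fun h => hxy (Sum.inl_injective h))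
      have hcardl : Q.toLeft.card = Q.card := by
        have h1 := card_toLeft_add_card_toRight (u := Q)
        have h2 : Q.toRight = ∅ := by
          apply eq_empty_of_forall_notMem
          intro j hj'
          rw [mem_toRight] at hj'
          exact hj j hj'
        rw [h2, card_empty] at h1
        omega
      have hle := clique_card_le S _ hQl
      rw [← G.clique_iff (u := u) S hk Z]
      refine ⟨Q.toLeft, ?_⟩
      rw [SimpleGraph.isNClique_iff]
      exact ⟨hQl, by omega⟩
  · intro hz
    obtain ⟨T, hT⟩ := (G.clique_iff (u := u) S hk Z).2 hz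
    rw [SimpleGraph.isNClique_iff] at hT
    refine ⟨T.map (inlE a b k u d), ?_, by rw [card_map, hT.2]⟩
    rw [coe_map]
    exact (hT.1.map (f := inlE a b k u d)).mono le_sup_left

/-! ### Numbers of edges -/

theorem ncard_map_inl (H : SimpleGraph (Vtx a b k u)) :
    (H.map (inlE a b k u d)).edgeSet.ncard = H.edgeSet.ncard := by
  rw [SimpleGraph.edgeSet_map, Set.ncard_image_of_injective _ (Function.Embedding.injective _)]

theorem WW_ncard_le (Z : Finset (Ground a b)) (D : SimpleGraph (VV a b k u d)) :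
    (WW S Z D).edgeSet.ncard ≤ (G.graphOf (u := u) S Z).edgeSet.ncard + D.edgeSet.ncard := by
  rw [WW, SimpleGraph.edgeSet_sup]
  refine (Set.ncard_union_le _ _).trans ?_
  rw [ncard_map_inl]

theorem WW_ncard {c : ℕ} (Z : Finset (Ground a b)) {D : SimpleGraph (VV a b k u d)}
    (hD : D ≤ Hg a b k u d c) :
    (WW S Z D).edgeSet.ncard = (G.graphOf (u := u) S Z).edgeSet.ncard + D.edgeSet.ncard := by
  rw [WW, SimpleGraph.edgeSet_sup, Set.ncard_union_eq ?_ (Set.toFinite _)
    (Set.toFinite _), ncard_map_inl]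
  rw [Set.disjoint_left]
  intro e h1 h2
  rw [SimpleGraph.edgeSet_map] at h1
  obtain ⟨e', -, rfl⟩ := h1
  induction e' using Sym2.ind with
  | _ x y =>
  exact Hg_inl x y (hD (show D.Adj (Sum.inl x) (Sum.inl y) from h2))

/-- The edge of a block variable. -/
def bedge (p : Ground a b) : Sym2 (Vtx a b k u) :=
  s(Sum.inl ((p.1, false), fun j => p.2 (false, j)), Sum.inl ((p.1, true), fun j => p.2 (true, j)))

theorem label_inl {x y : Vtx a b k u} {p : Ground a b} (hxy : grp x ≠ grp y)
    (h : label x y = Sum.inl p) : s(x, y) = bedge (u := u) p := by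
  rcases x with ⟨⟨i, h1⟩, z⟩ | x
  · rcases y with ⟨⟨i', h2⟩, z'⟩ | y
    · simp only [label] at h
      by_cases hi : i = i'
      · subst hi
        rw [if_pos rfl, Sum.inl.injEq] at h
        subst h
        have hne : h1 ≠ h2 := by
          intro e
          apply hxy
          simp [grp, e]
        cases h1 <;> cases h2
        · exact (hne rfl).elim
        · simp only [bedge, comb, if_true, Bool.true_eq_false, if_false]
        · simp only [bedge, comb, if_true, Bool.false_eq_true, if_false]
          exact Sym2.eq_swap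
        · exact (hne rfl).elim
      · rw [if_neg hi] at h
        simp at h
    · simp [label] at h
  · simp [label] at h

theorem gr_edges (Z : Finset (Ground a b)) :
    (G.graphOf (u := u) S Z).edgeSet ⊆
      (G.graphOf (u := u) S (∅ : Finset (Ground a b))).edgeSet ∪ bedge '' (Z : Set (Ground a b)) := by
  intro e
  induction e using Sym2.ind with
  | _ x y =>
  intro h
  rw [SimpleGraph.mem_edgeSet] at h
  have hbase := G.base_of_adj S h
  rw [G.graphOf_adj] at h
  have he : G.edge S x y = label x y := by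
    unfold G.edge
    rw [if_pos hbase]
  rw [he] at h
  cases hE : label x y with
  | inl p =>
    rw [hE] at h
    right
    exact ⟨p, h, (label_inl hbase.1 hE).symm⟩
  | inr c =>
    rw [hE] at h
    left
    rw [SimpleGraph.mem_edgeSet, G.graphOf_adj, he, hE]
    exact h

theorem gr_ncard_le (Z : Finset (Ground a b)) :
    (G.graphOf (u := u) S Z).edgeSet.ncard ≤
      (G.graphOf (u := u) S (∅ : Finset (Ground a b))).edgeSet.ncard + Z.card := by
  refine (Set.ncard_le_ncard (gr_edges S Z) (Set.toFinite _)).trans ?_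
  refine (Set.ncard_union_le _ _).trans ?_
  apply Nat.add_le_add_left
  refine (Set.ncard_image_le (Set.toFinite _)).trans ?_
  rw [Set.ncard_coe_finset]

/-! ### Turan graphs -/

/-- The embedding of the Turan graph. -/
def tur (i : Fin (u + d)) : VV a b k u d :=
  Sum.elim (fun x => Sum.inl (Sum.inr (Sum.inr x))) Sum.inr (finSumFinEquiv.symm i)

theorem tur_inj : Function.Injective (tur (a := a) (b := b) (k := k) (u := u) (d := d)) := by
  intro i j h
  obtain ⟨i, rfl⟩ := finSumFinEquiv.surjective i
  obtain ⟨j, rfl⟩ := finSumFinEquiv.surjective j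
  unfold tur at h
  rw [Equiv.symm_apply_apply, Equiv.symm_apply_apply] at h
  rcases i with i | i <;> rcases j with j | j
  · simp only [Sum.elim_inl, Sum.inl.injEq, Sum.inr.injEq] at h
    rw [h]
  · simp at h
  · simp at h
  · simp only [Sum.elim_inr, Sum.inr.injEq] at h
    rw [h]

theorem univ_adj (Z : Finset (Ground a b)) (i j : Fin u) (h : i ≠ j) :
    (G.graphOf (u := u) S Z).Adj (.inr (.inr i)) (.inr (.inr j)) := by
  have hbase : G.Base S (.inr (.inr i) : Vtx a b k u) (.inr (.inr j)) := by
    refine ⟨?_, 0, rfl, rfl⟩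
    simpa [grp] using h
  rw [G.graphOf_adj]
  unfold G.edge
  rw [if_pos hbase]
  rfl

theorem tur_adj {c : ℕ} (Z : Finset (Ground a b)) (i j : Fin (u + d))
    (h : (SimpleGraph.turanGraph (u + d) c).Adj i j) :
    (WW S Z (Hg a b k u d c)).Adj (tur i) (tur j) := by
  rw [SimpleGraph.turanGraph_adj] at h
  obtain ⟨i, rfl⟩ := finSumFinEquiv.surjective i
  obtain ⟨j, rfl⟩ := finSumFinEquiv.surjective j
  unfold tur
  rw [Equiv.symm_apply_apply, Equiv.symm_apply_apply]
  rcases i with i | i <;> rcases j with j | j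
  · rw [finSumFinEquiv_apply_left, finSumFinEquiv_apply_left, Fin.val_castAdd,
      Fin.val_castAdd] at h
    refine (WW_inl S le_rfl _ _).2 ?_
    apply univ_adj
    rintro rfl
    exact h rfl
  · rw [finSumFinEquiv_apply_left, finSumFinEquiv_apply_right, Fin.val_castAdd,
      Fin.val_natAdd] at h
    exact (WW_inr S _ _).2 h
  · rw [finSumFinEquiv_apply_left, finSumFinEquiv_apply_right, Fin.val_castAdd,
      Fin.val_natAdd] at h
    exact ((WW_inr S _ _).2 h.symm).symm
  · rw [finSumFinEquiv_apply_right, finSumFinEquiv_apply_right, Fin.val_natAdd,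
      Fin.val_natAdd] at h
    exact (WW_inr S _ _).2 h

theorem tur_ncard (c : ℕ) (Z : Finset (Ground a b)) :
    (SimpleGraph.turanGraph (u + d) c).edgeSet.ncard ≤
      (WW S Z (Hg a b k u d c)).edgeSet.ncard := by
  rw [← Set.ncard_image_of_injective (f := Sym2.map (tur (a := a) (b := b) (k := k)))
    (SimpleGraph.turanGraph (u + d) c).edgeSet (Sym2.map.injective tur_inj)]
  apply Set.ncard_le_ncard _ (Set.toFinite _)
  rintro _ ⟨e, he, rfl⟩
  induction e using Sym2.ind with
  | _ x y => exact tur_adj S Z x y he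

/-- There are enough optional edges. -/
theorem full_ncard {n K w : ℕ} (hK : 2 ≤ K) (hn : u + d + w = n) (Z : Finset (Ground a b)) :
    SimpleGraph.extremalNumber n (⊤ : SimpleGraph (Fin K)) ≤
      (WW S Z (Hg a b k u d (K - 1))).edgeSet.ncard + w * n := by
  subst hn
  rw [Pool.Agent.T9h36.extremal_eq _ K hK]
  exact (Pool.Agent.T9h36.turan_step _ _ _).trans (Nat.add_le_add_right (tur_ncard S (K - 1) Z) _)

/-- The structured part has few edges. -/
theorem gr_ncard_choose (Z : Finset (Ground a b)) :
    (G.graphOf (u := u) S Z).edgeSet.ncard ≤ (Fintype.card (Vtx a b k u)).choose 2 := by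
  rw [Pool.Agent.T9h36.ncard_edgeSet_eq]
  exact SimpleGraph.card_edgeFinset_le_card_choose_two

/-! ### Graphs between two graphs -/

theorem exists_between {V : Type} [Finite V] {G1 G2 : SimpleGraph V} (h : G1 ≤ G2) {e : ℕ}
    (h1 : G1.edgeSet.ncard ≤ e) (h2 : e ≤ G2.edgeSet.ncard) :
    ∃ G : SimpleGraph V, G1 ≤ G ∧ G ≤ G2 ∧ G.edgeSet.ncard = e := by
  obtain ⟨Y, hY1, hY2, hY⟩ := Set.exists_subsuperset_card_eq
    (SimpleGraph.edgeSet_subset_edgeSet.2 h) h1 h2
  have hdiag : (SimpleGraph.fromEdgeSet Y).edgeSet = Y := by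
    rw [SimpleGraph.edgeSet_fromEdgeSet]
    ext e
    constructor
    · exact fun h => h.1
    · exact fun h => ⟨h, SimpleGraph.not_isDiag_of_mem_edgeSet _ (hY2 h)⟩
  refine ⟨SimpleGraph.fromEdgeSet Y, ?_, ?_, ?_⟩
  · rw [← SimpleGraph.edgeSet_subset_edgeSet, hdiag]
    exact hY1
  · rw [← SimpleGraph.edgeSet_subset_edgeSet, hdiag]
    exact hY2
  · rw [hdiag, hY]

/-! ### Transfer to labelled graphs -/

/-- The padded graph on `Fin n`. -/
def Γ {n : ℕ} (ι : VV a b k u d ≃ Fin n) (Z : Finset (Ground a b))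
    (D : SimpleGraph (VV a b k u d)) : SimpleGraph (Fin n) := (WW S Z D).comap ι.symm

theorem Γ_mono {n : ℕ} (ι : VV a b k u d ≃ Fin n) {Z Z' : Finset (Ground a b)}
    {D D' : SimpleGraph (VV a b k u d)} (hz : Z ⊆ Z') (hD : D ≤ D') : Γ S ι Z D ≤ Γ S ι Z' D' :=
  fun _ _ h => WW_mono S hz hD h

theorem Γ_ncard {n : ℕ} (ι : VV a b k u d ≃ Fin n) (Z : Finset (Ground a b))
    (D : SimpleGraph (VV a b k u d)) :
    (Γ S ι Z D).edgeSet.ncard = (WW S Z D).edgeSet.ncard := by
  rw [← Nat.card_coe_set_eq, ← Nat.card_coe_set_eq]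
  exact Nat.card_congr (SimpleGraph.Iso.comap ι.symm (WW S Z D)).mapEdgeSet

theorem Γ_clique {n c : ℕ} (hk : 0 < k) (ha : 0 < a)
    (hc : c + 1 = Fintype.card (Grp a b k u))
    (ι : VV a b k u d ≃ Fin n) {Z : Finset (Ground a b)}
    {D : SimpleGraph (VV a b k u d)} (hD : D ≤ Hg a b k u d c) :
    (∃ Q : Finset (Fin n), (Γ S ι Z D).IsClique (Q : Set (Fin n)) ∧
      Fintype.card (Grp a b k u) ≤ Q.card) ↔ ∃ s, wordSet (sparseCode S) s ⊆ Z := by
  rw [← WW_clique S hk ha hc hD]
  constructor
  · rintro ⟨Q, hQ, hcard⟩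
    refine ⟨Q.map ι.symm.toEmbedding, ?_, by rw [card_map]; exact hcard⟩
    intro x hx y hy hxy
    rw [mem_coe, mem_map] at hx hy
    obtain ⟨x, hx, rfl⟩ := hx
    obtain ⟨y, hy, rfl⟩ := hy
    exact hQ hx hy fun h => hxy (by rw [h])
  · rintro ⟨Q, hQ, hcard⟩
    refine ⟨Q.map ι.toEmbedding, ?_, by rw [card_map]; exact hcard⟩
    intro x hx y hy hxy
    rw [mem_coe, mem_map] at hx hy
    obtain ⟨x, hx, rfl⟩ := hx
    obtain ⟨y, hy, rfl⟩ := hy
    change (WW S Z D).Adj (ι.symm (ι x)) (ι.symm (ι y))
    rw [Equiv.symm_apply_apply, Equiv.symm_apply_apply]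
    exact hQ hx hy fun h => hxy (by rw [h])

/-- Every adjacency is a block variable or constant. -/
noncomputable def projW {n : ℕ} (ι : VV a b k u d ≃ Fin n) (D : SimpleGraph (VV a b k u d)) :
    Fin n × Fin n → Ground a b ⊕ Bool := fun p =>
  match ι.symm p.1, ι.symm p.2 with
  | .inl x, .inl y => G.edge S x y
  | x, y => .inr (decide (D.Adj x y))

theorem pull_projW {n c : ℕ} (ι : VV a b k u d ≃ Fin n) {D : SimpleGraph (VV a b k u d)}
    (hD : D ≤ Hg a b k u d c) (Z : Finset (Ground a b)) :
    pull (projW S ι D) (chi Z) = graphInput (Γ S ι Z D) := by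
  funext p
  obtain ⟨p1, p2⟩ := p
  unfold pull projW graphInput
  rw [Bool.eq_iff_iff, decide_eq_true_eq]
  change _ ↔ (WW S Z D).Adj (ι.symm p1) (ι.symm p2)
  simp only
  rcases h1 : ι.symm p1 with x | i
  · rcases h2 : ι.symm p2 with y | j
    · rw [WW_inl S hD, G.graphOf_adj]
      simp only
      cases hE : G.edge S x y with
      | inl q => simp [chi]
      | inr c => simp
    · rw [WW_inr S]
      simp
  · rcases h2 : ι.symm p2 with y | j
    · rw [SimpleGraph.adj_comm, WW_inr S, SimpleGraph.adj_comm]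
      simp
    · rw [WW_inr S]
      simp

end Pool.Agent.T9h34.S
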