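import Pool.Agent.T9h34.S.Slice

set_option autoImplicit false

/-!
# Monotone circuits that are correct on two slices: the parameters
-/

namespace Pool.Agent.T9h34.S

open Finset Pool.Agent.T9h34 Pool.Agent.T9h34.G
open scoped Classical

/-- The quantitative theorem. -/
theorem slice_main (n K m1 m2 : ℕ) (C : Circuit (Fin n × Fin n)) (hC : C.numOther = 0)
    (hpos : ∀ G : SimpleGraph (Fin n), G.edgeSet.ncard = m1 →
      (∃ c : Finset (Fin n), G.IsClique (c : Set (Fin n)) ∧ K ≤ c.card) →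
        C.eval (graphInput G) = true)
    (hneg : ∀ G : SimpleGraph (Fin n), G.edgeSet.ncard = m2 →
      (¬ ∃ c : Finset (Fin n), G.IsClique (c : Set (Fin n)) ∧ K ≤ c.card) →
        ¬ C.eval (graphInput G) = true)
    (hK : 10 ^ 18 * (Nat.log 2 (C.size + 1) + 1) ^ 2 ≤ K)
    (hm1 : K.choose 2 + 10 ^ 18 * n * (Nat.log 2 (C.size + 1) + 1) ^ 2 ≤ m1)
    (hm2 : m2 + 10 ^ 18 * n * (Nat.log 2 (C.size + 1) + 1) ^ 2 ≤
      SimpleGraph.extremalNumber n (⊤ : SimpleGraph (Fin K))) :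
    m2 < m1 + 10 ^ 18 * (Nat.log 2 (C.size + 1) + 1) ^ 2 *
      (Nat.log 2 (Nat.log 2 (C.size + 1) + 1) + 1) ^ 5 := by
  have hmono : ∀ g ∈ C.gates, g.IsMono := by
    intro g hg
    unfold Circuit.numOther at hC
    rw [List.countP_eq_zero] at hC
    have := hC g hg
    unfold Gate.IsMono
    simpa using this
  obtain ⟨L, hL⟩ : ∃ L, L = Nat.log 2 (C.size + 1) + 1 := ⟨_, rfl⟩
  have hsize : C.size < 2 ^ L := by
    have : C.size + 1 < 2 ^ L := by
      rw [hL]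
      exact Nat.lt_pow_succ_log_self (by norm_num) _
    omega
  rw [← hL] at hK hm1 hm2 ⊢
  by_contra hcon
  rw [not_lt] at hcon
  have hL1 : 1 ≤ L := by omega
  obtain ⟨l, hl⟩ : ∃ l, l = L + 100 := ⟨_, rfl⟩
  have hl100 : 100 ≤ l := by omega
  have hlL : l ≤ 101 * L := by omega
  obtain ⟨y, hy⟩ : ∃ y, y = Nat.log 2 l := ⟨_, rfl⟩
  obtain ⟨z, hz⟩ : ∃ z, z = Nat.log 2 L := ⟨_, rfl⟩
  have hyz : y ≤ z + 7 := by
    have h1 : l < 2 ^ (z + 1) * 2 ^ 7 := by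
      have h2 : L < 2 ^ (z + 1) := by rw [hz]; exact Nat.lt_pow_succ_log_self (by norm_num) L
      calc l ≤ 101 * L := hlL
        _ < 101 * 2 ^ (z + 1) := Nat.mul_lt_mul_of_pos_left h2 (by norm_num)
        _ ≤ 128 * 2 ^ (z + 1) := Nat.mul_le_mul_right _ (by norm_num)
        _ = 2 ^ (z + 1) * 2 ^ 7 := by ring
    rw [← pow_add] at h1
    have h3 : Nat.log 2 l < z + 1 + 7 := (Nat.log_lt_iff_lt_pow (by norm_num) (by omega)).2 h1
    omega
  have hyl : 2 ^ y ≤ l := by rw [hy]; exact Nat.pow_log_le_self 2 (by omega)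
  obtain ⟨lam, hlam⟩ : ∃ lam, lam = 2 * y + 25 := ⟨_, rfl⟩
  have hlam1 : 1 ≤ lam := by omega
  have hlam7 : lam ^ 7 ≤ 25 ^ 7 * l := by
    rw [hlam]
    exact lam_pow.trans (Nat.mul_le_mul_left _ hyl)
  have hlamz : lam ≤ 39 * (z + 1) := by omega
  obtain ⟨a, b, k, m, S, ha, hk, hX, ha66, hblam, hkk, h2b, hard⟩ := block hl100
  rw [← hy, ← hlam] at hX ha66 hblam hkk h2b
  rw [← hz] at hcon
  -- the number of vertices of the block
  obtain ⟨w, hw⟩ : ∃ w, w = a * 2 * 2 ^ b + a * (2 * (b * k)) * 4 := ⟨_, rfl⟩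
  have hroot : lam ^ 2 * 2 ^ b ≤ 10 ^ 7 * l := by
    have h1 : (lam ^ 2 * 2 ^ b) ^ 2 ≤ (10 ^ 7 * l) ^ 2 := by
      calc (lam ^ 2 * 2 ^ b) ^ 2 = lam ^ 4 * 2 ^ (2 * b) := by
            rw [mul_pow, ← pow_mul, ← pow_mul]
            congr 2
            ring
        _ ≤ lam ^ 4 * (15360 * (lam ^ 3 * l)) := Nat.mul_le_mul_left _ h2b
        _ = 15360 * lam ^ 7 * l := by ring
        _ ≤ 15360 * (25 ^ 7 * l) * l := by
            apply Nat.mul_le_mul_right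
            exact Nat.mul_le_mul_left _ hlam7
        _ = (15360 * 25 ^ 7) * l ^ 2 := by ring
        _ ≤ (10 ^ 7) ^ 2 * l ^ 2 := Nat.mul_le_mul_right _ (by norm_num)
        _ = (10 ^ 7 * l) ^ 2 := by rw [mul_pow]
    exact (Nat.pow_le_pow_iff_left (by norm_num)).1 h1
  have hlam4 : lam ^ 4 ≤ 25 ^ 7 * l := by
    refine le_trans ?_ hlam7
    exact Nat.pow_le_pow_right hlam1 (by norm_num)
  have hw1 : a * 2 * 2 ^ b ≤ 132 * 10 ^ 7 * l ^ 2 := by
    calc a * 2 * 2 ^ b ≤ (66 * (lam ^ 2 * l)) * 2 * 2 ^ b := by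
          apply Nat.mul_le_mul_right
          exact Nat.mul_le_mul_right _ ha66
      _ = 132 * l * (lam ^ 2 * 2 ^ b) := by ring
      _ ≤ 132 * l * (10 ^ 7 * l) := Nat.mul_le_mul_left _ hroot
      _ = 132 * 10 ^ 7 * l ^ 2 := by ring
  have hw2 : a * (2 * (b * k)) * 4 ≤ 10 ^ 13 * l ^ 2 := by
    calc a * (2 * (b * k)) * 4 ≤ (66 * (lam ^ 2 * l)) * (2 * (lam * (2 * lam))) * 4 := by
          apply Nat.mul_le_mul_right
          apply Nat.mul_le_mul ha66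
          apply Nat.mul_le_mul_left
          rw [hkk]
          exact Nat.mul_le_mul_right _ hblam
      _ = 1056 * lam ^ 4 * l := by ring
      _ ≤ 1056 * (25 ^ 7 * l) * l := by
          apply Nat.mul_le_mul_right
          exact Nat.mul_le_mul_left _ hlam4
      _ = (1056 * 25 ^ 7) * l ^ 2 := by ring
      _ ≤ 10 ^ 13 * l ^ 2 := Nat.mul_le_mul_right _ (by norm_num)
  have hwl : w ≤ 10 ^ 18 * L ^ 2 := by
    have h1 : l ^ 2 ≤ (101 * L) ^ 2 := Nat.pow_le_pow_left hlL 2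
    calc w ≤ 132 * 10 ^ 7 * l ^ 2 + 10 ^ 13 * l ^ 2 := by rw [hw]; exact Nat.add_le_add hw1 hw2
      _ = (132 * 10 ^ 7 + 10 ^ 13) * l ^ 2 := by ring
      _ ≤ (132 * 10 ^ 7 + 10 ^ 13) * (101 * L) ^ 2 := Nat.mul_le_mul_left _ h1
      _ = ((132 * 10 ^ 7 + 10 ^ 13) * 101 ^ 2) * L ^ 2 := by ring
      _ ≤ 10 ^ 18 * L ^ 2 := Nat.mul_le_mul_right _ (by norm_num)
  have hXL : a * 2 ^ (2 * b) ≤ 10 ^ 18 * L ^ 2 * (z + 1) ^ 5 := by
    have h1 : l ^ 2 ≤ (101 * L) ^ 2 := Nat.pow_le_pow_left hlL 2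
    have h2 : lam ^ 5 ≤ (39 * (z + 1)) ^ 5 := Nat.pow_le_pow_left hlamz 5
    calc a * 2 ^ (2 * b) ≤ 1013760 * lam ^ 5 * l ^ 2 := hX
      _ ≤ 1013760 * (39 * (z + 1)) ^ 5 * (101 * L) ^ 2 :=
          Nat.mul_le_mul (Nat.mul_le_mul_left _ h2) h1
      _ = (1013760 * 39 ^ 5 * 101 ^ 2) * (L ^ 2 * (z + 1) ^ 5) := by ring
      _ ≤ 10 ^ 18 * (L ^ 2 * (z + 1) ^ 5) := Nat.mul_le_mul_right _ (by norm_num)
      _ = 10 ^ 18 * L ^ 2 * (z + 1) ^ 5 := by ring
  -- the number of groups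
  have hgr : a * 2 + a * (2 * (b * k)) ≤ w := by
    rw [hw]
    have h1 : a * 2 ≤ a * 2 * 2 ^ b := Nat.le_mul_of_pos_right _ (by positivity)
    have h2 : a * (2 * (b * k)) ≤ a * (2 * (b * k)) * 4 := Nat.le_mul_of_pos_right _ (by norm_num)
    omega
  have hnL : 10 ^ 18 * n * L ^ 2 = n * (10 ^ 18 * L ^ 2) := by ring
  have hex : SimpleGraph.extremalNumber n (⊤ : SimpleGraph (Fin K)) ≤ n.choose 2 := by
    rw [Pool.Agent.T9h36.extremal_eq n K (by
      have : 1 ≤ L ^ 2 := Nat.one_le_pow _ _ hL1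
      omega), Pool.Agent.T9h36.ncard_edgeSet_eq]
    refine (SimpleGraph.card_edgeFinset_le_card_choose_two).trans (le_of_eq ?_)
    rw [Fintype.card_fin]
  have hL2 : 1 ≤ L ^ 2 := Nat.one_le_pow _ _ hL1
  have hcc : K.choose 2 + n * (10 ^ 18 * L ^ 2) ≤ n.choose 2 := by
    rw [hnL] at hm1 hm2
    omega
  have hn0 : 0 < n := by
    by_contra hn0
    have hn0' : n = 0 := by omega
    rw [hn0'] at hcc
    have h1 : (2 : ℕ).choose 2 ≤ K.choose 2 := Nat.choose_le_choose 2 (by omega)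
    simp at hcc h1
    omega
  have hwn : w * n ≤ n * (10 ^ 18 * L ^ 2) := by
    rw [mul_comm w n]
    exact Nat.mul_le_mul_left _ hwl
  have hpos' : 0 < n * (10 ^ 18 * L ^ 2) := Nat.mul_pos hn0 (by positivity)
  have hKn : K ≤ n := by
    by_contra hKn
    have h1 : n.choose 2 ≤ K.choose 2 := Nat.choose_le_choose 2 (by omega)
    omega
  have hfit : K + w ≤ n := by
    by_contra hfit
    have h1 := Pool.Agent.T9h36.choose_two_add K (n - K)
    have h2 : K + (n - K) = n := by omega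
    rw [h2] at h1
    have h3 : (n - K) * n < w * n := Nat.mul_lt_mul_of_pos_right (by omega) hn0
    omega
  obtain ⟨u, hu⟩ : ∃ u, K = a * 2 + (a * (2 * (b * k)) + u) :=
    ⟨K - (a * 2 + a * (2 * (b * k))), by omega⟩
  obtain ⟨d, hd⟩ : ∃ d, u + d + w = n := ⟨n - u - w, by omega⟩
  have hcardG : Fintype.card (Grp a b k u) = K := by
    simp only [Grp, Fintype.card_sum, Fintype.card_prod, Fintype.card_fin, Fintype.card_bool]
    omega
  have hcardV : Fintype.card (Vtx a b k u) = u + w := by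
    simp only [Vtx, Fintype.card_sum, Fintype.card_prod, Fintype.card_fin, Fintype.card_bool,
      Fintype.card_fun, ZMod.card]
    rw [hw]
    ring
  have hchoose : (u + w).choose 2 ≤ K.choose 2 + n * (10 ^ 18 * L ^ 2) := by
    calc (u + w).choose 2 ≤ (K + w).choose 2 := Nat.choose_le_choose 2 (by omega)
      _ ≤ K.choose 2 + w * (K + w) := Pool.Agent.T9h36.choose_two_add K w
      _ ≤ K.choose 2 + w * n := Nat.add_le_add_left (Nat.mul_le_mul_left _ hfit) _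
      _ ≤ _ := Nat.add_le_add_left hwn _
  rw [hnL] at hm1 hm2
  refine slice_core (d := d) S (by omega) (by omega) n K m1 m2 w l hcardG.symm hcardV hd hard C
    hmono (lt_of_lt_of_le hsize (Nat.pow_le_pow_right (by norm_num) (by omega))) hpos hneg
    (by omega) ?_ ?_ ?_
  · omega
  · omega
  · omega

end Pool.Agent.T9h34.S
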